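import Pool.Agent.Y139.GR.Rep

/-! Measures on compact spaces with a group of characters. -/

set_option autoImplicit false

namespace Pool.Agent.HX6.ST

open Filter Topology Complex MeasureTheory Pool.Agent.Y139.ID Pool.Agent.Y139.GR
open scoped ComplexConjugate

/-- a group of characters whose span is dense -/
structure Chars {X A : Type*} [TopologicalSpace X] [CompactSpace X] [AddCommGroup A]
    (e : A → C(X, ℂ)) : Prop where
  zero : ∀ x, e 0 x = 1
  add : ∀ a b x, e (a + b) x = e a x * e b x
  neg : ∀ a x, e (-a) x = conj (e a x)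
  dense : (Submodule.span ℂ (Set.range e)).topologicalClosure = ⊤

variable {X A : Type*} [PseudoEMetricSpace X] [CompactSpace X] [MeasurableSpace X] [BorelSpace X]
  [AddCommGroup A] {e : A → C(X, ℂ)}

/-- the Fourier coefficient `∫ e_a dμ` -/
noncomputable def fc (e : A → C(X, ℂ)) (μ : Measure X) (a : A) : ℂ := ∫ x, e a x ∂μ

theorem integrable_cont (μ : Measure X) [IsFiniteMeasure μ] (f : C(X, ℂ)) : Integrable f μ := by
  refine Integrable.of_bound f.continuous.aestronglyMeasurable ‖f‖
    (Eventually.of_forall fun x => f.norm_coe_le_norm x)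

theorem fc_add (μ ν : Measure X) [IsFiniteMeasure μ] [IsFiniteMeasure ν] (a : A) :
    fc e (μ + ν) a = fc e μ a + fc e ν a := by
  unfold fc
  exact integral_add_measure (integrable_cont μ _) (integrable_cont ν _)

variable (μ : Measure X) [IsFiniteMeasure μ]

/-- multiplication by a character -/
noncomputable def mulC (e : A → C(X, ℂ)) (n : A) : Lp ℂ 2 μ →L[ℂ] Lp ℂ 2 μ :=
  (ContinuousLinearMap.mul ℂ ℂ).holderL μ ⊤ 2 2 (ContinuousMap.toLp ⊤ μ ℂ (e n))

theorem coeFn_mulC (n : A) (f : Lp ℂ 2 μ) :
    mulC μ e n f =ᵐ[μ] fun x => e n x * f x := by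
  unfold mulC
  rw [ContinuousLinearMap.holderL_apply_apply]
  refine (ContinuousLinearMap.coeFn_holder _ _ _).trans ?_
  filter_upwards [ContinuousMap.coeFn_toLp (p := ⊤) (𝕜 := ℂ) μ (e n : C(X, ℂ))]
    with x hx
  rw [hx]
  rfl

theorem urep_mulC (he : Chars e) : URep (mulC μ e) where
  zero f := by
    refine Lp.ext ((coeFn_mulC μ 0 f).trans ?_)
    filter_upwards with x
    rw [he.zero, one_mul]
  add a b f := by
    refine Lp.ext ((coeFn_mulC μ (a + b) f).trans ?_)
    filter_upwards [coeFn_mulC μ a (mulC μ e b f), coeFn_mulC (e := e) μ b f] with x h1 h2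
    rw [h1, h2, he.add, mul_assoc]
  adj a f g := by
    rw [L2.inner_def, L2.inner_def]
    refine integral_congr_ae ?_
    filter_upwards [coeFn_mulC (e := e) μ a f, coeFn_mulC (e := e) μ (-a) g] with x h1 h2
    rw [h1, h2, he.neg]
    simp only [RCLike.inner_apply, map_mul]
    ring

theorem inner_mulC (n : A) (f : Lp ℂ 2 μ) :
    inner ℂ f (mulC μ e n f) = ∫ x, e n x * ((‖f x‖ ^ 2 : ℝ) : ℂ) ∂μ := by
  rw [L2.inner_def]
  refine integral_congr_ae ?_
  filter_upwards [coeFn_mulC (e := e) μ n f] with x h1
  rw [h1]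
  simp only [RCLike.inner_apply]
  rw [mul_assoc, Complex.mul_conj, Complex.normSq_eq_norm_sq]

omit [PseudoEMetricSpace X] [CompactSpace X] [BorelSpace X] in
/-- the constant function `1` -/
noncomputable def one2 : Lp ℂ 2 μ := (memLp_const (1 : ℂ)).toLp (fun _ => (1 : ℂ))

omit [CompactSpace X] [BorelSpace X] in
theorem coeFn_one2 : (one2 μ : X → ℂ) =ᵐ[μ] fun _ => (1 : ℂ) :=
  (memLp_const (1 : ℂ)).coeFn_toLp

theorem inner_one2 (n : A) : inner ℂ (one2 μ) (mulC μ e n (one2 μ)) = fc e μ n := by
  rw [inner_mulC]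
  refine integral_congr_ae ?_
  filter_upwards [coeFn_one2 μ] with x h1
  rw [h1]
  simp

variable {μ}

omit [MeasurableSpace X] [BorelSpace X] in
/-- a continuous linear functional which vanishes on the characters vanishes -/
theorem zero_of_chars (he : Chars e) (L : C(X, ℂ) →ₗ[ℂ] ℂ) (C : ℝ)
    (hL : ∀ f : C(X, ℂ), ‖L f‖ ≤ C * ‖f‖)
    (h : ∀ n : A, L (e n) = 0) (f : C(X, ℂ)) : L f = 0 := by
  set Lc := L.mkContinuous C hL with hLc
  have : Lc = 0 := by
    refine ContinuousLinearMap.ext_on (s := Set.range e) ?_ ?_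
    · have h1 := he.dense
      rw [dense_iff_closure_eq]
      have h2 := congrArg (fun S : Submodule ℂ C(X, ℂ) =>
        (S : Set C(X, ℂ))) h1
      simpa [Submodule.topologicalClosure_coe] using h2
    · rintro _ ⟨n, rfl⟩
      exact h n
  exact congrArg (fun T => T f) this

omit [IsFiniteMeasure μ] in
/-- an integrable function with vanishing Fourier coefficients vanishes -/
theorem ae_zero (he : Chars e) {g : X → ℂ} (hg : Integrable g μ)
    (h : ∀ n : A, ∫ x, e n x * g x ∂μ = 0) : g =ᵐ[μ] 0 := by
  have hint : ∀ f : C(X, ℂ), Integrable (fun x => f x * g x) μ := fun f =>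
    hg.bdd_mul (f.continuous.aestronglyMeasurable)
      (Eventually.of_forall fun x => f.norm_coe_le_norm x)
  let L : C(X, ℂ) →ₗ[ℂ] ℂ :=
    { toFun := fun f => ∫ x, f x * g x ∂μ
      map_add' := fun f f' => by
        rw [← integral_add (hint f) (hint f')]
        refine integral_congr_ae (Eventually.of_forall fun x => ?_)
        simp [add_mul]
      map_smul' := fun a f => by
        simp only [ContinuousMap.smul_apply, smul_eq_mul, RingHom.id_apply, mul_assoc]
        rw [integral_const_mul] }
  have hL : ∀ f : C(X, ℂ), ‖L f‖ ≤ (∫ x, ‖g x‖ ∂μ) * ‖f‖ := by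
    intro f
    change ‖∫ x, f x * g x ∂μ‖ ≤ _
    refine (norm_integral_le_integral_norm _).trans ?_
    rw [← integral_mul_const]
    refine integral_mono (hint f).norm (hg.norm.mul_const _) fun x => ?_
    simp only
    rw [norm_mul, mul_comm]
    exact mul_le_mul_of_nonneg_left (f.norm_coe_le_norm x) (norm_nonneg _)
  have h0 := zero_of_chars he L _ hL h
  refine ae_eq_zero_of_forall_setIntegral_isClosed_eq_zero hg fun F hF => ?_
  -- approximate the indicator function of `F`
  have hδpos : ∀ n : ℕ, (0 : ℝ) < 1 / (n + 1) := fun n => by positivity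
  have hδlim : Tendsto (fun n : ℕ => 1 / ((n : ℝ) + 1)) atTop (𝓝 0) :=
    tendsto_one_div_add_atTop_nhds_zero_nat
  have hconv := thickenedIndicator_tendsto_indicator_closure hδpos hδlim F
  rw [hF.closure_eq] at hconv
  have hconv' := tendsto_pi_nhds.1 hconv
  have h1 : Tendsto (fun n : ℕ => ∫ x, ((thickenedIndicator (hδpos n) F x : ℝ) : ℂ) * g x ∂μ) atTop
      (𝓝 (∫ x, F.indicator g x ∂μ)) := by
    refine tendsto_integral_of_dominated_convergence (fun x => ‖g x‖) (fun n => ?_) hg.norm
      (fun n => ?_) ?_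
    · refine AEStronglyMeasurable.mul ?_ hg.aestronglyMeasurable
      exact (Complex.continuous_ofReal.comp (NNReal.continuous_coe.comp
        (thickenedIndicator (hδpos n) F).continuous)).aestronglyMeasurable
    · refine Eventually.of_forall fun x => ?_
      rw [norm_mul]
      refine mul_le_of_le_one_left (norm_nonneg _) ?_
      rw [Complex.norm_real, Real.norm_of_nonneg (NNReal.coe_nonneg _)]
      exact_mod_cast thickenedIndicator_le_one (hδpos n) F x
    · refine Eventually.of_forall fun x => ?_
      have h2 := hconv' x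
      have h3 := (((Complex.continuous_ofReal.tendsto _).comp
        ((NNReal.continuous_coe.tendsto _).comp h2)).mul_const (g x))
      refine h3.congr' (Eventually.of_forall fun n => rfl) |>.trans_eq ?_
      by_cases hxF : x ∈ F
      · simp [hxF]
      · simp [hxF]
  rw [integral_indicator hF.measurableSet] at h1
  refine tendsto_nhds_unique h1 (tendsto_const_nhds.congr fun n => ?_)
  exact (h0 ⟨fun x => ((thickenedIndicator (hδpos n) F x : ℝ) : ℂ),
    Complex.continuous_ofReal.comp (NNReal.continuous_coe.comp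
        (thickenedIndicator (hδpos n) F).continuous)⟩).symm

/-- integrals of continuous functions are determined by the Fourier coefficients -/
theorem integral_eq_of_fc (he : Chars e) (μ ν : Measure X) [IsFiniteMeasure μ]
    [IsFiniteMeasure ν] (h : ∀ n : A, fc e μ n = fc e ν n) (f : C(X, ℂ)) :
    ∫ x, f x ∂μ = ∫ x, f x ∂ν := by
  let L : C(X, ℂ) →ₗ[ℂ] ℂ :=
    { toFun := fun f => ∫ x, f x ∂μ - ∫ x, f x ∂ν
      map_add' := fun f f' => by
        simp only [ContinuousMap.add_apply]
        rw [integral_add (integrable_cont μ f) (integrable_cont μ f'),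
          integral_add (integrable_cont ν f) (integrable_cont ν f')]
        ring
      map_smul' := fun a f => by
        simp only [ContinuousMap.smul_apply, smul_eq_mul, RingHom.id_apply]
        rw [integral_const_mul, integral_const_mul]
        ring }
  have hb : ∀ (ρ : Measure X) [IsFiniteMeasure ρ] (f : C(X, ℂ)),
      ‖∫ x, f x ∂ρ‖ ≤ ρ.real Set.univ * ‖f‖ := fun ρ _ f => by
    rw [mul_comm]
    exact norm_integral_le_of_norm_le_const (Eventually.of_forall fun x => f.norm_coe_le_norm x)
  have h0 := zero_of_chars he L (μ.real Set.univ + ν.real Set.univ) (fun f => by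
    refine (norm_sub_le _ _).trans ?_
    rw [add_mul]
    exact add_le_add (hb μ f) (hb ν f)) (fun n => sub_eq_zero.2 (h n)) f
  exact sub_eq_zero.1 h0

end Pool.Agent.HX6.ST
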