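import Pool.Agent.HX6.ST.A

/-! Measures with integer Fourier coefficients: the theorem of Cohen and Helson for positive measures. -/

set_option autoImplicit false

namespace Pool.Agent.HX6.ST

open Filter Topology Complex MeasureTheory Pool.Agent.Y139.ID Pool.Agent.Y139.GR
open scoped ComplexConjugate

section rep
variable {A H : Type*} [AddCommGroup A] [NormedAddCommGroup H] [InnerProductSpace ℂ H]
  [CompleteSpace H] {T : A → H →L[ℂ] H}

/-- a shortest vector of the orbit closure has only finitely many translates which are not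
orthogonal to it -/
theorem finite_translates (hT : URep T) {ξ η : H}
    (hξ : ∀ a, ∃ n : ℤ, inner ℂ ξ (T a ξ) = n) (hη : Orb T ξ η)
    (hmin : ∀ w, Orb T ξ w → w ≠ 0 → ‖η‖ ≤ ‖w‖) :
    {x : H | ∃ a, inner ℂ (T a η) η ≠ 0 ∧ T a η = x}.Finite := by
  set S : Set H := {x : H | ∃ a, inner ℂ (T a η) η ≠ 0 ∧ T a η = x} with hS
  by_contra hinf
  have hinf' : Infinite S := Set.infinite_coe_iff.2 hinf
  have h1 : ∀ x : S, ∃ a, inner ℂ (T a η) η ≠ 0 ∧ T a η = (x : H) := fun x => x.2
  choose a ha1 ha2 using h1
  set U : Ultrafilter S := Filter.hyperfilter S with hU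
  obtain ⟨z, hz⟩ := exists_wlim U (fun x : S => T (a x) η) (C := ‖η‖) fun x => (hT.norm _ _).le
  have hOz : Orb T ξ z := orb_closed (g := (U : Filter S)) (fun x => orb_trans hT hη (a x)) hz
  have hint : ∀ x : S, 1 ≤ ‖inner ℂ (T (a x) η) η‖ := by
    intro x
    obtain ⟨n, hn⟩ := int_orb hT hξ (orb_trans hT hη (a x)) hη
    have h2 := ha1 x
    rw [hn] at h2 ⊢
    have h3 : n ≠ 0 := by rintro rfl; simp at h2
    rw [Complex.norm_intCast]
    exact_mod_cast Int.one_le_abs h3
  have hzη : 1 ≤ ‖inner ℂ z η‖ := ge_of_tendsto (hz η).norm (Eventually.of_forall hint)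
  have hz0 : z ≠ 0 := by
    rintro rfl
    rw [inner_zero_left, norm_zero] at hzη
    linarith
  have hn : ‖η‖ = ‖z‖ := le_antisymm (hmin z hOz hz0) (hz.norm_le fun x => (hT.norm _ _).le)
  have hstrong := hz.strong fun x => (hT.norm (a x) η).trans hn
  have h4 : ∀ᶠ x in (U : Filter S), ‖T (a x) η - z‖ < 1 := hstrong.eventually_lt_const one_pos
  have h5 : ∀ᶠ x : S in (U : Filter S), (x : H) = z := by
    filter_upwards [h4] with x hx
    rw [← ha2 x]
    exact eq_of_close hT hξ (orb_trans hT hη (a x)) hOz hx ((hT.norm _ _).trans hn)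
  have h6 : {x : S | (x : H) = z}.Finite := by
    refine Set.Subsingleton.finite fun x hx y hy => ?_
    exact Subtype.ext (hx.trans hy.symm)
  exact Filter.notMem_hyperfilter_of_finite h6 h5

end rep

variable {X A : Type*} [PseudoEMetricSpace X] [CompactSpace X] [MeasurableSpace X] [BorelSpace X]
  [AddCommGroup A] {e : A → C(X, ℂ)}

/-- a piece of a measure with integer coefficients -/
structure IsPiece (e : A → C(X, ℂ)) (μ : Measure X) (H : AddSubgroup A) (F : Finset A) : Prop where
  int : ∀ n, ∃ c : ℤ, fc e μ n = c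
  one : ∀ κ ∈ H, ∀ᵐ x ∂μ, e κ x = 1
  fin : ∀ n, fc e μ n ≠ 0 → ∃ a ∈ F, n - a ∈ H

theorem one_piece (he : Chars e) (μ : Measure X) [IsFiniteMeasure μ]
    (hint : ∀ n, ∃ c : ℤ, fc e μ n = c) (hμ0 : μ ≠ 0) :
    ∃ B : Set X, MeasurableSet B ∧ μ B ≠ 0 ∧ ∃ (H : AddSubgroup A) (F : Finset A),
      IsPiece e (μ.restrict B) H F := by
  have hT := urep_mulC μ he
  have hξ' : ∀ a, ∃ n : ℤ, inner ℂ (one2 μ) (mulC μ e a (one2 μ)) = n := fun a => by
    rw [inner_one2]; exact hint a
  have hξ : ∀ a, inner ℂ (one2 μ) (mulC μ e a (one2 μ)) = 0 ∨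
      (1 : ℝ) ≤ ‖inner ℂ (one2 μ) (mulC μ e a (one2 μ))‖ := fun a => by
    obtain ⟨n, hn⟩ := hξ' a
    rw [hn]
    by_cases h : n = 0
    · left; simp [h]
    · right
      rw [Complex.norm_intCast]
      exact_mod_cast Int.one_le_abs h
  have hξ0 : one2 μ ≠ 0 := by
    intro h0
    have h1 := inner_one2 (e := e) μ 0
    rw [h0, inner_zero_left] at h1
    unfold fc at h1
    simp only [he.zero, integral_const] at h1
    have h2 : μ.real Set.univ = 0 := by
      have := h1.symm
      simpa using this
    rw [measureReal_eq_zero_iff] at h2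
    exact hμ0 (Measure.measure_univ_eq_zero.1 h2)
  obtain ⟨η, hη, hη0, hmin, horth⟩ := split hT hξ one_pos hξ0
  -- `η` takes the values `0` and `1`
  have hg : (fun x => inner ℂ (η x) ((one2 μ - η : Lp ℂ 2 μ) x)) =ᵐ[μ] 0 := by
    refine ae_zero he (L2.integrable_inner η (one2 μ - η)) fun n => ?_
    rw [← horth (-n), L2.inner_def]
    refine integral_congr_ae ?_
    filter_upwards [coeFn_mulC (e := e) μ (-n) η] with x h1
    rw [h1, he.neg]
    simp only [RCLike.inner_apply, map_mul, RingHomCompTriple.comp_apply, RingHom.id_apply]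
    ring
  have hval : ∀ᵐ x ∂μ, η x = 0 ∨ η x = 1 := by
    filter_upwards [hg, coeFn_one2 μ, Lp.coeFn_sub (one2 μ) η] with x h1 h2 h3
    rw [h3] at h1
    simp only [Pi.sub_apply, h2, RCLike.inner_apply, Pi.zero_apply, mul_eq_zero] at h1
    rcases h1 with h1 | h1
    · right; exact (sub_eq_zero.1 h1).symm
    · left; simpa using h1
  have hηm : Measurable (η : X → ℂ) := (Lp.stronglyMeasurable η).measurable
  set B : Set X := {x | η x = 1} with hB
  have hBm : MeasurableSet B := hηm (measurableSet_singleton 1)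
  have hfc : ∀ n, fc e (μ.restrict B) n = inner ℂ η (mulC μ e n η) := by
    intro n
    rw [inner_mulC]
    unfold fc
    rw [← integral_indicator hBm]
    refine integral_congr_ae ?_
    filter_upwards [hval] with x hx
    by_cases hxB : x ∈ B
    · have hx1 : η x = 1 := hxB
      rw [Set.indicator_of_mem hxB, hx1]
      simp
    · have hx0 : η x = 0 := by
        rcases hx with h | h
        · exact h
        · exact absurd h hxB
      rw [Set.indicator_of_notMem hxB, hx0]
      simp
  let H : AddSubgroup A :=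
    { carrier := {κ | mulC μ e κ η = η}
      zero_mem' := hT.zero η
      add_mem' := fun {a b} ha hb => by
        change mulC μ e (a + b) η = η
        rw [hT.add, show mulC μ e b η = η from hb]
        exact ha
      neg_mem' := fun {a} ha => by
        change mulC μ e (-a) η = η
        have h1 : mulC μ e a η = η := ha
        calc mulC μ e (-a) η = mulC μ e (-a) (mulC μ e a η) := by rw [h1]
          _ = η := by rw [← hT.add, neg_add_cancel, hT.zero] }
  have hfin := finite_translates hT hξ' hη hmin
  have hsel : ∃ F : Finset A, ∀ n, inner ℂ (mulC μ e n η) η ≠ 0 →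
      ∃ a ∈ F, mulC μ e n η = mulC μ e a η := by
    classical
    have h1 : ∀ x ∈ hfin.toFinset, ∃ a, mulC μ e a η = x := by
      intro x hx
      obtain ⟨a, -, ha⟩ := hfin.mem_toFinset.1 hx
      exact ⟨a, ha⟩
    choose! f hf using h1
    refine ⟨hfin.toFinset.image f, fun n hn => ?_⟩
    have h2 : mulC μ e n η ∈ hfin.toFinset := hfin.mem_toFinset.2 ⟨n, hn, rfl⟩
    exact ⟨f (mulC μ e n η), Finset.mem_image_of_mem _ h2, (hf _ h2).symm⟩
  obtain ⟨F, hF⟩ := hsel
  refine ⟨B, hBm, ?_, H, F, ?_, ?_, ?_⟩
  · intro h0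
    apply hη0
    refine Lp.ext ?_
    have h1 : ∀ᵐ x ∂μ, x ∉ B := by
      rw [ae_iff]; simpa using h0
    filter_upwards [hval, h1, Lp.coeFn_zero ℂ 2 μ] with x hx hxB hx0
    rw [hx0]
    rcases hx with h | h
    · simpa using h
    · exact absurd h hxB
  · intro n
    rw [hfc]
    exact int_orb hT hξ' hη (orb_trans hT hη n)
  · intro κ hκ
    have h1 : mulC μ e κ η = η := hκ
    rw [ae_restrict_iff' hBm]
    have h2 := coeFn_mulC (e := e) μ κ η
    rw [h1] at h2
    filter_upwards [h2] with x hx hxB
    have hx1 : η x = 1 := hxB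
    rw [hx1] at hx
    simpa using hx.symm
  · intro n hn
    rw [hfc] at hn
    have h1 : inner ℂ (mulC μ e n η) η ≠ 0 := by
      intro h0
      apply hn
      rw [← inner_conj_symm, h0, map_zero]
    obtain ⟨a, ha, hna⟩ := hF n h1
    refine ⟨a, ha, ?_⟩
    change mulC μ e (n - a) η = η
    rw [sub_eq_add_neg, add_comm, hT.add, hna, ← hT.add, neg_add_cancel, hT.zero]

theorem fc_restrict_compl (μ : Measure X) [IsFiniteMeasure μ] {B : Set X}
    (hB : MeasurableSet B) (n : A) :
    fc e (μ.restrict Bᶜ) n = fc e μ n - fc e (μ.restrict B) n := by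
  have h1 := fc_add (e := e) (μ.restrict B) (μ.restrict Bᶜ) n
  rw [Measure.restrict_add_restrict_compl hB] at h1
  rw [h1]; ring

/-- the theorem of Cohen and Helson for positive measures with integer coefficients -/
theorem pieces (he : Chars e) : ∀ (N : ℕ) (μ : Measure X) [IsFiniteMeasure μ],
    (∀ n, ∃ c : ℤ, fc e μ n = c) → μ.real Set.univ ≤ N →
    ∃ (k : ℕ) (_ : k ≤ N) (ν : Fin k → Measure X) (H : Fin k → AddSubgroup A)
      (F : Fin k → Finset A), (∀ i, IsFiniteMeasure (ν i)) ∧ (∀ i, 1 ≤ (ν i).real Set.univ) ∧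
      (∀ i, IsPiece e (ν i) (H i) (F i)) ∧ μ = ∑ i, ν i := by
  intro N
  induction N with
  | zero =>
    intro μ _ hint hN
    have h1 : μ.real Set.univ = 0 := le_antisymm (by simpa using hN) measureReal_nonneg
    rw [measureReal_eq_zero_iff] at h1
    refine ⟨0, le_rfl, fun i => i.elim0, fun i => i.elim0, fun i => i.elim0, fun i => i.elim0,
      fun i => i.elim0, fun i => i.elim0, ?_⟩
    rw [Measure.measure_univ_eq_zero.1 h1]
    simp
  | succ N ih =>
    intro μ _ hint hN
    by_cases hμ0 : μ = 0
    · refine ⟨0, Nat.zero_le _, fun i => i.elim0, fun i => i.elim0, fun i => i.elim0,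
        fun i => i.elim0, fun i => i.elim0, fun i => i.elim0, ?_⟩
      rw [hμ0]
      simp
    obtain ⟨B, hBm, hB0, H, F, hP⟩ := one_piece he μ hint hμ0
    -- the mass of the piece is a positive integer
    have hmass : 1 ≤ (μ.restrict B).real Set.univ := by
      obtain ⟨c, hc⟩ := hP.int 0
      unfold fc at hc
      simp only [he.zero, integral_const] at hc
      have h1 : (μ.restrict B).real Set.univ = (c : ℝ) := by
        have h2 := congrArg Complex.re hc
        simpa using h2
      have h2 : 0 < (μ.restrict B).real Set.univ := by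
        rw [measureReal_restrict_apply MeasurableSet.univ, Set.univ_inter]
        exact (measureReal_nonneg).lt_of_ne' (fun h => hB0 (by
          rwa [measureReal_eq_zero_iff] at h))
      rw [h1] at h2 ⊢
      have : 0 < c := by exact_mod_cast h2
      exact_mod_cast this
    have hadd : (μ.restrict B).real Set.univ + (μ.restrict Bᶜ).real Set.univ =
        μ.real Set.univ := by
      rw [measureReal_restrict_apply MeasurableSet.univ,
        measureReal_restrict_apply MeasurableSet.univ, Set.univ_inter, Set.univ_inter]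
      exact measureReal_add_measureReal_compl hBm
    have hle : (μ.restrict Bᶜ).real Set.univ ≤ N := by
      push_cast at hN
      linarith
    obtain ⟨k, hk, ν, H', F', h1, h2, h3, h4⟩ := ih (μ.restrict Bᶜ) (fun n => by
      obtain ⟨c, hc⟩ := hint n
      obtain ⟨c', hc'⟩ := hP.int n
      exact ⟨c - c', by rw [fc_restrict_compl μ hBm, hc, hc']; push_cast; ring⟩) hle
    refine ⟨k + 1, by omega, Fin.cons (μ.restrict B) ν, Fin.cons H H', Fin.cons F F', ?_, ?_, ?_, ?_⟩
    · intro i
      refine Fin.cases ?_ (fun i => ?_) i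
      · simp only [Fin.cons_zero]; infer_instance
      · simp only [Fin.cons_succ]; exact h1 i
    · intro i
      refine Fin.cases ?_ (fun i => ?_) i
      · simpa only [Fin.cons_zero] using hmass
      · simpa only [Fin.cons_succ] using h2 i
    · intro i
      refine Fin.cases ?_ (fun i => ?_) i
      · simpa only [Fin.cons_zero] using hP
      · simpa only [Fin.cons_succ] using h3 i
    · rw [Fin.sum_univ_succ]
      simp only [Fin.cons_zero, Fin.cons_succ]
      rw [← h4, Measure.restrict_add_restrict_compl hBm]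

end Pool.Agent.HX6.ST
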