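import Pool.Agent.HX6.ST.B

/-! Pieces on the torus: trigonometric polynomials on closed subgroups. -/

set_option autoImplicit false

namespace Pool.Agent.HX6.ST

open Filter Topology Complex MeasureTheory UnitAddTorus
open scoped ComplexConjugate

section torus

variable {d : Type*} [Fintype d]

/-- the pairing -/
noncomputable def pr (n : d → ℤ) (x : UnitAddTorus d) : UnitAddCircle := ∑ i, n i • x i

theorem toCircle_sum {ι : Type*} (s : Finset ι) (f : ι → UnitAddCircle) :
    AddCircle.toCircle (∑ i ∈ s, f i) = ∏ i ∈ s, AddCircle.toCircle (f i) := by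
  classical
  induction s using Finset.induction_on with
  | empty => simp
  | insert a s ha ih => rw [Finset.sum_insert ha, Finset.prod_insert ha, AddCircle.toCircle_add, ih]

theorem mF_pr (n : d → ℤ) (x : UnitAddTorus d) :
    mFourier n x = ((AddCircle.toCircle (pr n x) : Circle) : ℂ) := by
  unfold pr
  rw [toCircle_sum]
  simp only [mFourier, fourier_apply, ContinuousMap.coe_mk]
  exact (map_prod Circle.coeHom _ _).symm

theorem pr_add (n : d → ℤ) (x y : UnitAddTorus d) : pr n (x + y) = pr n x + pr n y := by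
  unfold pr
  simp [smul_add, Finset.sum_add_distrib]

theorem mF_vadd (n : d → ℤ) (x y : UnitAddTorus d) :
    mFourier n (x + y) = mFourier n x * mFourier n y := by
  rw [mF_pr, mF_pr, mF_pr, pr_add, AddCircle.toCircle_add]
  push_cast
  rfl

theorem mF_vzero (n : d → ℤ) : mFourier n (0 : UnitAddTorus d) = 1 := by
  rw [mF_pr]
  unfold pr
  simp

theorem mF_one_iff (n : d → ℤ) (x : UnitAddTorus d) : mFourier n x = 1 ↔ pr n x = 0 := by
  rw [mF_pr]
  constructor
  · intro h
    have h1 : AddCircle.toCircle (pr n x) = 1 := by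
      ext
      rw [h]
      rfl
    rw [← AddCircle.toCircle_zero] at h1
    exact AddCircle.injective_toCircle one_ne_zero h1
  · intro h
    rw [h, AddCircle.toCircle_zero]
    rfl

theorem norm_mF (n : d → ℤ) (x : UnitAddTorus d) : ‖mFourier n x‖ = 1 := by
  rw [mF_pr]
  exact Circle.norm_coe _

theorem chars_mF : Chars (mFourier : (d → ℤ) → C(UnitAddTorus d, ℂ)) where
  zero x := by rw [mFourier_zero]; rfl
  add a b x := mFourier_add
  neg a x := mFourier_neg
  dense := span_mFourier_closure_eq_top

/-- the annihilator of a group of frequencies -/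
def ann (H : AddSubgroup (d → ℤ)) : AddSubgroup (UnitAddTorus d) where
  carrier := {x | ∀ κ ∈ H, mFourier κ x = 1}
  zero_mem' := fun κ _ => mF_vzero κ
  add_mem' := fun {x y} hx hy κ hκ => by rw [mF_vadd, hx κ hκ, hy κ hκ, one_mul]
  neg_mem' := fun {x} hx κ hκ => by
    have h1 := mF_vadd κ (-x) x
    rw [neg_add_cancel, mF_vzero, hx κ hκ, mul_one] at h1
    exact h1.symm

theorem isClosed_ann (H : AddSubgroup (d → ℤ)) : IsClosed (ann H : Set (UnitAddTorus d)) := by
  have h1 : (ann H : Set (UnitAddTorus d)) = ⋂ κ ∈ H, {x | mFourier κ x = 1} := by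
    ext x
    simp only [Set.mem_iInter]
    rfl
  rw [h1]
  exact isClosed_biInter fun κ _ => isClosed_eq (mFourier κ).continuous continuous_const

/-- the inclusion of the rational circle -/
noncomputable def rc : AddCircle (1 : ℚ) →+ UnitAddCircle :=
  QuotientAddGroup.map _ _ (Rat.castHom ℝ).toAddMonoidHom (by
    intro q hq
    obtain ⟨n, hn⟩ := AddSubgroup.mem_zmultiples_iff.1 hq
    rw [AddSubgroup.mem_comap, AddSubgroup.mem_zmultiples_iff]
    refine ⟨n, ?_⟩
    rw [← hn]
    simp)

theorem rc_inj : Function.Injective rc := by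
  rw [injective_iff_map_eq_zero]
  intro a ha
  obtain ⟨q, rfl⟩ := QuotientAddGroup.mk_surjective a
  have h1 : ((q : ℝ) : UnitAddCircle) = 0 := ha
  rw [QuotientAddGroup.eq_zero_iff] at h1 ⊢
  obtain ⟨n, hn⟩ := AddSubgroup.mem_zmultiples_iff.1 h1
  rw [AddSubgroup.mem_zmultiples_iff]
  refine ⟨n, ?_⟩
  have h2 : ((n : ℚ) : ℝ) = (q : ℝ) := by
    rw [← hn]
    simp
  have h3 : (n : ℚ) = q := by exact_mod_cast h2
  rw [← h3]
  simp

/-- duality -/
theorem exists_sep {H : AddSubgroup (d → ℤ)} {n : d → ℤ} (hn : n ∉ H) :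
    ∃ x ∈ ann H, mFourier n x ≠ 1 := by
  classical
  have h0 : (QuotientAddGroup.mk n : (d → ℤ) ⧸ H) ≠ 0 := by
    intro h
    exact hn ((QuotientAddGroup.eq_zero_iff n).1 h)
  obtain ⟨c, hc⟩ := CharacterModule.exists_character_apply_ne_zero_of_ne_zero h0
  set c0 : ((d → ℤ) ⧸ H) →+ AddCircle (1 : ℚ) := c with hc0
  set c' : (d → ℤ) →+ UnitAddCircle := (rc.comp c0).comp (QuotientAddGroup.mk' H) with hc'
  set x : UnitAddTorus d := fun i => c' (Pi.single i 1) with hx
  have hpr : ∀ κ : d → ℤ, pr κ x = c' κ := by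
    intro κ
    have h1 : κ = ∑ i, κ i • (Pi.single i 1 : d → ℤ) := by
      funext j
      simp [Finset.sum_apply, Pi.single_apply]
    conv_rhs => rw [h1, map_sum]
    unfold pr
    refine Finset.sum_congr rfl fun i _ => ?_
    rw [map_zsmul]
  refine ⟨x, ?_, ?_⟩
  · intro κ hκ
    rw [mF_one_iff, hpr, hc']
    have h1 : QuotientAddGroup.mk' H κ = 0 := (QuotientAddGroup.eq_zero_iff κ).2 hκ
    rw [AddMonoidHom.comp_apply, AddMonoidHom.comp_apply, h1, map_zero, map_zero]
  · rw [Ne, mF_one_iff, hpr, hc', AddMonoidHom.comp_apply, AddMonoidHom.comp_apply]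
    intro h
    have h1 := (injective_iff_map_eq_zero rc).1 rc_inj _ h
    exact hc h1

/-- `m` is the Haar probability measure of `K`, as a measure on the torus -/
structure HaarOn (K : AddSubgroup (UnitAddTorus d)) (m : Measure (UnitAddTorus d)) : Prop where
  prob : IsProbabilityMeasure m
  null : m (K : Set (UnitAddTorus d))ᶜ = 0
  inv : ∀ x ∈ K, m.map (fun y => x + y) = m

theorem exists_haarOn {K : AddSubgroup (UnitAddTorus d)}
    (hK : IsClosed (K : Set (UnitAddTorus d))) : ∃ m : Measure (UnitAddTorus d), HaarOn K m ∧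
      ∀ g : UnitAddTorus d → ℂ, Continuous g → g =ᵐ[m] 0 → ∀ x ∈ K, g x = 0 := by
  have : CompactSpace K := isCompact_iff_compactSpace.1 hK.isCompact
  set h : Measure K := Measure.addHaarMeasure ⊤ with hh
  have hprob : IsProbabilityMeasure h := ⟨by
    have h1 := Measure.addHaarMeasure_self (K₀ := (⊤ : TopologicalSpace.PositiveCompacts K))
    rw [TopologicalSpace.PositiveCompacts.coe_top] at h1
    exact h1⟩
  have hms : Measurable (Subtype.val : K → UnitAddTorus d) := measurable_subtype_coe
  refine ⟨h.map Subtype.val, ⟨?_, ?_, ?_⟩, ?_⟩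
  · exact Measure.isProbabilityMeasure_map hms.aemeasurable
  · rw [Measure.map_apply hms hK.measurableSet.compl]
    have : (Subtype.val ⁻¹' (K : Set (UnitAddTorus d))ᶜ : Set K) = ∅ := by
      ext x
      simp
    rw [this, measure_empty]
  · intro x hx
    have hm2 : Measurable fun y : UnitAddTorus d => x + y := measurable_const_add x
    rw [Measure.map_map hm2 hms]
    have h1 : ((fun y : UnitAddTorus d => x + y) ∘ (Subtype.val : K → UnitAddTorus d)) =
        Subtype.val ∘ fun y : K => (⟨x, hx⟩ : K) + y := rfl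
    rw [h1, ← Measure.map_map hms (measurable_const_add _)]
    congr 1
    exact map_add_left_eq_self h _
  · intro g hg hg0 x hx
    have h1 : ∀ᵐ y : K ∂h, g (y : UnitAddTorus d) = 0 := by
      have := ae_of_ae_map hms.aemeasurable hg0
      exact this
    have h2 : (fun y : K => g y) = fun _ => (0 : ℂ) := by
      refine (Continuous.ae_eq_iff_eq h (hg.comp continuous_subtype_val) continuous_const).1 ?_
      exact h1
    exact congrFun h2 ⟨x, hx⟩

theorem fc_haarOn {H : AddSubgroup (d → ℤ)} {m : Measure (UnitAddTorus d)}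
    (hm : HaarOn (ann H) m) [DecidablePred (· ∈ H)] (n : d → ℤ) :
    fc mFourier m n = if n ∈ H then 1 else 0 := by
  have := hm.prob
  have hae : ∀ᵐ x ∂m, x ∈ ann H := by
    rw [ae_iff]
    exact hm.null
  by_cases hn : n ∈ H
  · rw [if_pos hn]
    unfold fc
    have h1 : ∫ x, mFourier n x ∂m = ∫ _ : UnitAddTorus d, (1 : ℂ) ∂m := by
      refine integral_congr_ae ?_
      filter_upwards [hae] with x hx
      exact hx n hn
    rw [h1]
    simp
  · rw [if_neg hn]
    obtain ⟨x, hx, hx1⟩ := exists_sep hn
    have h1 : fc mFourier m n = mFourier n x * fc mFourier m n := by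
      unfold fc
      conv_lhs => rw [← hm.inv x hx]
      rw [integral_map (measurable_const_add x).aemeasurable
        (mFourier n).continuous.aestronglyMeasurable]
      simp only [mF_vadd]
      rw [integral_const_mul]
    have h2 : (1 - mFourier n x) * fc mFourier m n = 0 := by
      rw [sub_mul, one_mul, ← h1, sub_self]
    rcases mul_eq_zero.1 h2 with h3 | h3
    · exact absurd (sub_eq_zero.1 h3).symm hx1
    · exact h3

/-- the trigonometric polynomial with the coefficients `c` -/
noncomputable def tp (F : Finset (d → ℤ)) (c : (d → ℤ) → ℂ) (x : UnitAddTorus d) : ℂ :=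
  ∑ a ∈ F, c a * mFourier (-a) x

theorem continuous_tp (F : Finset (d → ℤ)) (c : (d → ℤ) → ℂ) : Continuous (tp F c) := by
  unfold tp
  exact continuous_finsetSum _ fun a _ => continuous_const.mul (mFourier (-a)).continuous

/-- **the shape of a piece** -/
theorem shape {ν : Measure (UnitAddTorus d)} [IsFiniteMeasure ν] {H : AddSubgroup (d → ℤ)}
    {F : Finset (d → ℤ)} (hP : IsPiece mFourier ν H F) {m : Measure (UnitAddTorus d)}
    (hm : HaarOn (ann H) m) : ∃ F' : Finset (d → ℤ),
      (∀ a ∈ F', ∀ b ∈ F', a - b ∈ H → a = b) ∧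
      ∀ h : C(UnitAddTorus d, ℂ), ∫ x, h x ∂ν = ∫ x, h x * tp F' (fc mFourier ν) x ∂m := by
  classical
  have := hm.prob
  set F' : Finset (d → ℤ) := (F.image (QuotientAddGroup.mk : (d → ℤ) → (d → ℤ) ⧸ H)).image
    Quotient.out with hF'
  have hmk : ∀ q : (d → ℤ) ⧸ H, (QuotientAddGroup.mk (Quotient.out q) : (d → ℤ) ⧸ H) = q :=
    fun q => Quotient.out_eq' q
  have hmem : ∀ a b : d → ℤ, (QuotientAddGroup.mk a : (d → ℤ) ⧸ H) = QuotientAddGroup.mk b ↔
      a - b ∈ H := by
    intro a b
    rw [QuotientAddGroup.eq_iff_sub_mem]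
  have hdist : ∀ a ∈ F', ∀ b ∈ F', a - b ∈ H → a = b := by
    intro a ha b hb hab
    obtain ⟨q, -, rfl⟩ := Finset.mem_image.1 ha
    obtain ⟨q', -, rfl⟩ := Finset.mem_image.1 hb
    have h1 := (hmem _ _).2 hab
    rw [hmk, hmk] at h1
    rw [h1]
  have hcov : ∀ n, fc mFourier ν n ≠ 0 → ∃ a ∈ F', n - a ∈ H := by
    intro n hn
    obtain ⟨a, ha, hna⟩ := hP.fin n hn
    refine ⟨Quotient.out (QuotientAddGroup.mk a : (d → ℤ) ⧸ H),
      Finset.mem_image_of_mem _ (Finset.mem_image_of_mem _ ha), ?_⟩
    rw [← hmem, hmk, hmem]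
    exact hna
  have hshift : ∀ n a, n - a ∈ H → fc mFourier ν n = fc mFourier ν a := by
    intro n a hna
    unfold fc
    refine integral_congr_ae ?_
    filter_upwards [hP.one _ hna] with x hx
    have h1 : n = (n - a) + a := by abel
    rw [h1, mFourier_add, hx, one_mul]
  refine ⟨F', hdist, fun h => ?_⟩
  have htpc : Continuous (tp F' (fc mFourier ν)) := continuous_tp _ _
  set P : C(UnitAddTorus d, ℂ) := ⟨tp F' (fc mFourier ν), htpc⟩ with hPdef
  let L : C(UnitAddTorus d, ℂ) →ₗ[ℂ] ℂ :=
    { toFun := fun f => ∫ x, f x ∂ν - ∫ x, f x * P x ∂m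
      map_add' := fun f f' => by
        simp only [ContinuousMap.add_apply, add_mul]
        have e1 := integral_add (integrable_cont m (f * P)) (integrable_cont m (f' * P))
        simp only [ContinuousMap.mul_apply] at e1
        rw [integral_add (integrable_cont ν f) (integrable_cont ν f'), e1]
        ring
      map_smul' := fun a f => by
        simp only [ContinuousMap.smul_apply, smul_eq_mul, RingHom.id_apply, mul_assoc]
        rw [integral_const_mul, integral_const_mul]
        ring }
  have h0 := zero_of_chars chars_mF L (ν.real Set.univ + ‖P‖) (fun f => by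
    refine (norm_sub_le _ _).trans ?_
    rw [add_mul]
    refine add_le_add ?_ ?_
    · rw [mul_comm]
      exact norm_integral_le_of_norm_le_const
        (Eventually.of_forall fun x => f.norm_coe_le_norm x)
    · have h1 := norm_integral_le_of_norm_le_const (μ := m) (f := fun x => f x * P x)
        (C := ‖P‖ * ‖f‖) (Eventually.of_forall fun x => by
          rw [norm_mul, mul_comm]
          exact mul_le_mul (P.norm_coe_le_norm x) (f.norm_coe_le_norm x) (norm_nonneg _)
            (norm_nonneg _))
      simpa using h1) (fun n => ?_) h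
  · exact sub_eq_zero.1 h0
  · change fc mFourier ν n - ∫ x, mFourier n x * tp F' (fc mFourier ν) x ∂m = 0
    have h1 : ∀ x, mFourier n x * tp F' (fc mFourier ν) x =
        ∑ a ∈ F', fc mFourier ν a * mFourier (n - a) x := by
      intro x
      unfold tp
      rw [Finset.mul_sum]
      refine Finset.sum_congr rfl fun a _ => ?_
      rw [sub_eq_add_neg, mFourier_add]
      ring
    simp only [h1]
    rw [integral_finsetSum _ fun a _ => (integrable_cont m (mFourier (n - a))).const_mul _]
    simp only [integral_const_mul]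
    have h2 : ∀ a, ∫ x, mFourier (n - a) x ∂m = if n - a ∈ H then 1 else 0 :=
      fun a => fc_haarOn hm (n - a)
    simp only [h2]
    by_cases hn : fc mFourier ν n = 0
    · rw [hn, zero_sub, neg_eq_zero]
      refine Finset.sum_eq_zero fun a _ => ?_
      by_cases hna : n - a ∈ H
      · rw [← hshift n a hna, hn, zero_mul]
      · rw [if_neg hna, mul_zero]
    · obtain ⟨a, ha, hna⟩ := hcov n hn
      rw [Finset.sum_eq_single a]
      · rw [if_pos hna, mul_one, hshift n a hna, sub_self]
      · intro b hb hba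
        rw [if_neg, mul_zero]
        intro hnb
        apply hba
        refine hdist b hb a ha ?_
        have : b - a = (n - a) - (n - b) := by abel
        rw [this]
        exact H.sub_mem hna hnb
      · intro h; exact absurd ha h

/-- the density of a piece is real and not negative on the subgroup -/
theorem dens_nonneg {ν m : Measure (UnitAddTorus d)} [IsFiniteMeasure ν] [IsFiniteMeasure m]
    {K : AddSubgroup (UnitAddTorus d)} {p : UnitAddTorus d → ℂ} (hp : Continuous p)
    (h1 : ∀ h : C(UnitAddTorus d, ℂ), ∫ x, h x ∂ν = ∫ x, h x * p x ∂m)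
    (hs : ∀ g : UnitAddTorus d → ℂ, Continuous g → g =ᵐ[m] 0 → ∀ x ∈ K, g x = 0) :
    ∀ x ∈ K, (p x).im = 0 ∧ 0 ≤ (p x).re := by
  have key : ∀ f : UnitAddTorus d → ℝ, Continuous f → (∫ x, f x * (p x).re ∂m = ∫ x, f x ∂ν) ∧
      ∫ x, f x * (p x).im ∂m = 0 := by
    intro f hf
    have h2 := h1 ⟨fun x => (f x : ℂ), Complex.continuous_ofReal.comp hf⟩
    simp only [ContinuousMap.coe_mk] at h2
    rw [integral_complex_ofReal] at h2
    have h3 : Integrable (fun x => (f x : ℂ) * p x) m :=
      integrable_cont m ⟨fun x => (f x : ℂ) * p x, (Complex.continuous_ofReal.comp hf).mul hp⟩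
    have h4 := integral_re_add_im h3
    rw [← h2] at h4
    have h5 : ∀ x, RCLike.re ((f x : ℂ) * p x) = f x * (p x).re := fun x => by
      exact Complex.re_ofReal_mul _ _
    have h6 : ∀ x, RCLike.im ((f x : ℂ) * p x) = f x * (p x).im := fun x => by
      exact Complex.im_ofReal_mul _ _
    simp only [h5, h6] at h4
    constructor
    · have h7 := congrArg Complex.re h4
      simpa using h7
    · have h7 := congrArg Complex.im h4
      simpa using h7
  have zero : ∀ f : UnitAddTorus d → ℝ, Continuous f → ∫ x, f x * f x ∂m = 0 →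
      ∀ x ∈ K, f x = 0 := by
    intro f hf h0 x hx
    have hint : Integrable (fun x => f x * f x) m := by
      obtain ⟨C, hC⟩ := (isCompact_univ (X := UnitAddTorus d)).exists_bound_of_continuousOn
        (hf.mul hf).continuousOn
      exact Integrable.of_bound (hf.mul hf).aestronglyMeasurable C
        (Eventually.of_forall fun x => hC x (Set.mem_univ _))
    rw [integral_eq_zero_iff_of_nonneg (fun x => mul_self_nonneg _) hint] at h0
    have h2 := hs (fun x => (f x : ℂ)) (Complex.continuous_ofReal.comp hf) (by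
      filter_upwards [h0] with y hy
      simp only [Pi.zero_apply, mul_self_eq_zero] at hy
      simp [hy]) x hx
    exact_mod_cast h2
  intro x hx
  constructor
  · exact zero (fun x => (p x).im) (Complex.continuous_im.comp hp)
      (key _ (Complex.continuous_im.comp hp)).2 x hx
  · have hc : Continuous fun x => max (-(p x).re) 0 :=
      (Complex.continuous_re.comp hp).neg.max continuous_const
    have h2 := (key _ hc).1
    have h3 : 0 ≤ ∫ x, max (-(p x).re) 0 ∂ν := integral_nonneg fun x => le_max_right _ _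
    have h4 : ∀ x, max (-(p x).re) 0 * (p x).re = -(max (-(p x).re) 0 * max (-(p x).re) 0) := by
      intro x
      rcases le_total (-(p x).re) 0 with h | h
      · rw [max_eq_right h]; ring
      · rw [max_eq_left h]; ring
    simp only [h4] at h2
    rw [integral_neg] at h2
    have h5 : 0 ≤ ∫ x, max (-(p x).re) 0 * max (-(p x).re) 0 ∂m :=
      integral_nonneg fun x => mul_self_nonneg _
    have h6 : max (-(p x).re) 0 = 0 :=
      zero (fun x => max (-(p x).re) 0) hc (by linarith) x hx
    have h7 := le_max_left (-(p x).re) 0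
    rw [h6] at h7
    linarith

end torus

end Pool.Agent.HX6.ST
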