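import Pool.Agent.HX6.GO.F
import Pool.Agent.HX6.GO.A

/-! Analytic mean values and orders at one. -/

set_option autoImplicit false
set_option linter.unusedSectionVars false

namespace Pool.Agent.HX6.ST

open Complex Filter Topology ComplexConjugate NumberField IsDedekindDomain MeasureTheory
  Pool.Agent.TH553.RS Pool.Agent.TH553.ST Pool.Agent.W540.BE Pool.Agent.H341R2 Pool.Agent.HX6.GO

section riesz

/-- a positive functional is a measure -/
theorem riesz {X : Type*} [TopologicalSpace X] [CompactSpace X] [T2Space X] [MeasurableSpace X]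
    [BorelSpace X] (L : C(X, ℝ) → ℝ) (hadd : ∀ f g, L (f + g) = L f + L g)
    (hsmul : ∀ (c : ℝ) f, L (c • f) = c * L f) (hpos : ∀ f : C(X, ℝ), (∀ x, 0 ≤ f x) → 0 ≤ L f) :
    ∃ μ : Measure X, IsFiniteMeasure μ ∧ ∀ f : C(X, ℝ), ∫ x, f x ∂μ = L f := by
  set Λ0 : CompactlySupportedContinuousMap X ℝ →ₗ[ℝ] ℝ :=
    { toFun := fun g => L g.toContinuousMap
      map_add' := fun g h => by
        rw [← hadd]
        rfl
      map_smul' := fun c g => by
        rw [RingHom.id_apply, smul_eq_mul, ← hsmul]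
        rfl } with hΛ0
  set Λ : CompactlySupportedContinuousMap X ℝ →ₚ[ℝ] ℝ := PositiveLinearMap.mk₀ Λ0 (by
    intro g hg
    exact hpos _ fun x => hg x) with hΛ
  have hmain : ∀ f : C(X, ℝ), ∫ x, f x ∂(RealRMK.rieszMeasure Λ) = L f := by
    intro f
    set fc : CompactlySupportedContinuousMap X ℝ := ⟨f, HasCompactSupport.of_compactSpace f⟩
    have h1 := RealRMK.integral_rieszMeasure Λ fc
    exact h1
  refine ⟨RealRMK.rieszMeasure Λ, ?_, hmain⟩
  refine ⟨?_⟩
  set fc : CompactlySupportedContinuousMap X ℝ :=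
    ⟨ContinuousMap.const X (1 : ℝ), HasCompactSupport.of_compactSpace _⟩ with hfc
  have h1 := RealRMK.rieszMeasure_le_of_eq_one Λ (f := fc) (K := Set.univ) (fun z => by
    change (0 : ℝ) ≤ 1
    exact zero_le_one) isCompact_univ (fun z _ => rfl)
  exact lt_of_le_of_lt h1 ENNReal.ofReal_lt_top

end riesz

theorem lam_log : Tendsto (fun ε : ℝ => lam ε / Real.log (1 / ε)) (𝓝[>] 0) (𝓝 1) := by
  obtain ⟨C, hC⟩ := lam_bounded
  have h1 : Tendsto (fun ε : ℝ => (lam ε + Real.log ε) / Real.log (1 / ε)) (𝓝[>] 0) (𝓝 0) := by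
    have h2 : Tendsto (fun ε : ℝ => C / Real.log (1 / ε)) (𝓝[>] 0) (𝓝 0) :=
      tendsto_const_nhds.div_atTop log_tendsto
    refine squeeze_zero_norm' ?_ h2
    filter_upwards [hC, log_tendsto.eventually_gt_atTop 0] with ε h3 h4
    rw [norm_div, Real.norm_eq_abs, Real.norm_eq_abs, abs_of_pos h4]
    exact div_le_div_of_nonneg_right h3 h4.le
  have h2 := h1.add_const 1
  rw [zero_add] at h2
  refine h2.congr' ?_
  filter_upwards [log_tendsto.eventually_gt_atTop 0, self_mem_nhdsWithin] with ε h4 h5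
  have h6 : (0 : ℝ) < ε := h5
  have h7 : Real.log (1 / ε) = - Real.log ε := by rw [one_div, Real.log_inv]
  have h8 : Real.log (1 / ε) ≠ 0 := h4.ne'
  field_simp
  rw [h7]
  ring

variable {K : Type} [Field K] [NumberField K]

/-- the sum `∑ t(v) q_v^{-1-ε}` -/
noncomputable def cs (t : HeightOneSpectrum (𝓞 K) → ℂ) (ε : ℝ) : ℂ :=
  ∑' v, t v * ((nm K v : ℕ) : ℂ) ^ (-(1 + ε : ℂ))

theorem cpow_real (v : HeightOneSpectrum (𝓞 K)) (ε : ℝ) :
    ((nm K v : ℕ) : ℂ) ^ (-(1 + ε : ℂ)) = (((nm K v : ℝ) ^ (-(1 + ε)) : ℝ) : ℂ) := by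
  rw [Complex.ofReal_cpow (by positivity)]
  push_cast
  rfl

theorem re_cs {t : HeightOneSpectrum (𝓞 K) → ℂ} (ht : Bc t) {ε : ℝ} (hε : 0 < ε) :
    (cs t ε).re = EP (nm K) ε fun v => (t v).re := by
  obtain ⟨B, hB⟩ := ht
  have hre : 1 < (1 + ε : ℂ).re := by simp [hε]
  rw [cs, Complex.re_tsum (summable_nm hB hre), EP]
  refine tsum_congr fun v => ?_
  rw [cpow_real, Complex.re_mul_ofReal]

theorem im_cs {t : HeightOneSpectrum (𝓞 K) → ℂ} (ht : Bc t) {ε : ℝ} (hε : 0 < ε) :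
    (cs t ε).im = EP (nm K) ε fun v => (t v).im := by
  obtain ⟨B, hB⟩ := ht
  have hre : 1 < (1 + ε : ℂ).re := by simp [hε]
  rw [cs, Complex.im_tsum (summable_nm hB hre), EP]
  refine tsum_congr fun v => ?_
  rw [cpow_real, Complex.im_mul_ofReal]

/-- `t` has the analytic mean value `c` -/
def Am (t : HeightOneSpectrum (𝓞 K) → ℂ) (c : ℂ) : Prop :=
  Tendsto (fun ε : ℝ => cs t ε / (Real.log (1 / ε) : ℂ)) (𝓝[>] 0) (𝓝 c)

theorem qt_log {t : HeightOneSpectrum (𝓞 K) → ℝ} {c : ℝ} {F : Filter ℝ} (hF : F ≤ 𝓝[>] 0) :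
    Tendsto (fun ε => EP (nm K) ε t / Real.log (1 / ε)) F (𝓝 c) ↔
      Tendsto (qt (nm K) t) F (𝓝 c) := by
  have h1 := lam_log.mono_left hF
  constructor
  · intro h
    have h2 := h.div h1 one_ne_zero
    rw [div_one] at h2
    refine h2.congr' ?_
    filter_upwards [hF (lam_tendsto.eventually_gt_atTop 0),
      hF (log_tendsto.eventually_gt_atTop 0)] with ε h3 h4
    simp only [Pi.div_apply]
    unfold qt
    field_simp
  · intro h
    have h2 := h.mul h1
    rw [mul_one] at h2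
    refine h2.congr' ?_
    filter_upwards [hF (lam_tendsto.eventually_gt_atTop 0),
      hF (log_tendsto.eventually_gt_atTop 0)] with ε h3 h4
    unfold qt
    field_simp

theorem am_iff {t : HeightOneSpectrum (𝓞 K) → ℂ} (ht : Bc t) {c : ℂ} :
    Am t c ↔ ∀ U : Ultrafilter ℝ, (U : Filter ℝ) ≤ 𝓝[>] 0 → Mc (nm K) U t = c := by
  constructor
  · intro h U hU
    have h0 := h.mono_left hU
    have hpos : ∀ᶠ ε in (U : Filter ℝ), (0 : ℝ) < ε := (pos_of_le hU).mono fun _ h => h.1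
    apply Complex.ext
    · rw [Mc_re]
      apply M_eq
      rw [← qt_log hU]
      refine ((Complex.continuous_re.tendsto _).comp h0).congr' ?_
      filter_upwards [hpos] with ε hε
      rw [Function.comp_apply, Complex.div_ofReal_re, re_cs ht hε]
    · rw [Mc_im]
      apply M_eq
      rw [← qt_log hU]
      refine ((Complex.continuous_im.tendsto _).comp h0).congr' ?_
      filter_upwards [hpos] with ε hε
      rw [Function.comp_apply, Complex.div_ofReal_im, im_cs ht hε]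
  · intro h
    unfold Am
    rw [Filter.tendsto_iff_ultrafilter]
    intro U hU
    have hpos : ∀ᶠ ε in (U : Filter ℝ), (0 : ℝ) < ε := (pos_of_le hU).mono fun _ h => h.1
    have h1 := (qt_log (t := fun v => (t v).re) (c := M (nm K) U fun v => (t v).re) hU).2
      (M_lim (sysF K) hU ht.re)
    have h2 := (qt_log (t := fun v => (t v).im) (c := M (nm K) U fun v => (t v).im) hU).2
      (M_lim (sysF K) hU (Bc.im ht))
    have h3 := ((Complex.continuous_ofReal.tendsto _).comp h1).add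
      (((Complex.continuous_ofReal.tendsto _).comp h2).mul_const I)
    rw [← h U hU]
    refine h3.congr' ?_
    filter_upwards [hpos] with ε hε
    simp only [Function.comp_apply]
    apply Complex.ext
    · rw [Complex.div_ofReal_re, re_cs ht hε, Complex.add_re, Complex.ofReal_re, Complex.mul_re,
        Complex.ofReal_im, Complex.I_re, Complex.I_im]
      ring
    · rw [Complex.div_ofReal_im, im_cs ht hε, Complex.add_im, Complex.ofReal_im, Complex.mul_im,
        Complex.ofReal_re, Complex.ofReal_im, Complex.I_re, Complex.I_im]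
      ring

theorem Am.unique {t : HeightOneSpectrum (𝓞 K) → ℂ} {c c' : ℂ} (h : Am t c) (h' : Am t c') :
    c = c' := tendsto_nhds_unique h h'

/-- **the order at `s = 1` is the analytic mean value** -/
theorem am_ord {b : ℕ} {α : HeightOneSpectrum (𝓞 K) → Fin b → ℂ} (hα : ∀ v j, ‖α v j‖ = 1)
    {Λ : ℂ → ℂ} {m : ℤ} (h1 : MeromorphicAt Λ 1)
    (h2 : ∀ᶠ s in 𝓝 (1 : ℂ), 1 < s.re → Λ s = LA α s)
    (h3 : meromorphicOrderAt Λ 1 = m) : Am (fun v => ∑ j, α v j) (-(m : ℂ)) := by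
  have e1 : (1 : ℂ) + ((0 : ℝ) : ℂ) * I = 1 := by simp
  obtain ⟨y, hy⟩ := bd_ord (τ := 0) hα (L := LA α) (fun s _ => rfl) (Λ := Λ) (m := m)
    (by rw [e1]; exact h1) (by rw [e1]; exact h2) (by rw [e1]; exact h3)
  rw [e1] at hy
  set t : HeightOneSpectrum (𝓞 K) → ℂ := fun v => ∑ j, α v j with ht
  have htb : ∀ v, ‖t v‖ ≤ b := sum_le hα
  -- the derivative of the difference is bounded near zero
  have hpath : Tendsto (fun ε : ℝ => (1 + ε : ℂ)) (𝓝[>] 0) (𝓝[{s : ℂ | 1 < s.re}] 1) := by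
    rw [tendsto_nhdsWithin_iff]
    constructor
    · have : ContinuousAt (fun ε : ℝ => (1 + ε : ℂ)) 0 := by fun_prop
      have h2 := this.tendsto
      simp only [ofReal_zero, add_zero] at h2
      exact h2.mono_left nhdsWithin_le_nhds
    · filter_upwards [self_mem_nhdsWithin] with ε hε
      have hε' : (0 : ℝ) < ε := hε
      simp [hε']
  have h4 := (hy.comp hpath).norm
  obtain ⟨C, hC⟩ := h4.isBoundedUnder_le
  have h5 := Filter.eventually_map.1 hC
  rw [eventually_nhdsWithin_iff] at h5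
  obtain ⟨δ, hδ, h6⟩ := Metric.eventually_nhds_iff.1 h5
  have hder : ∀ ε ∈ Set.Ioo (0 : ℝ) δ, HasDerivWithinAt
      (fun ε : ℝ => LSeries (nf t) (1 + ε) - (m : ℂ) * (Real.log ε : ℂ))
      (-(Pool.Agent.TH553.ST.S t (1 + ε) + m / ((1 + ε : ℂ) - 1))) (Set.Ioo (0 : ℝ) δ) ε := by
    intro ε hε
    have hre : 1 < (1 + ε : ℂ).re := by simp [hε.1]
    have e2 := (deriv_nf htb hre)
    have e3 : HasDerivAt (fun ε : ℝ => (1 + ε : ℂ)) 1 ε := by
      have := (Complex.ofRealCLM.hasDerivAt (x := ε)).const_add (1 : ℂ)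
      simpa using this
    have e4 := e2.comp_of_eq ε e3 rfl
    have e5 : HasDerivAt (fun ε : ℝ => (Real.log ε : ℂ)) ((ε⁻¹ : ℝ) : ℂ) ε :=
      (Real.hasDerivAt_log hε.1.ne').ofReal_comp
    have e6 := (e4.sub (e5.const_mul (m : ℂ))).hasDerivWithinAt (s := Set.Ioo (0 : ℝ) δ)
    refine e6.congr_deriv ?_
    push_cast
    rw [add_sub_cancel_left]
    ring
  have hbd : ∀ ε ∈ Set.Ioo (0 : ℝ) δ,
      ‖-(Pool.Agent.TH553.ST.S t (1 + ε) + m / ((1 + ε : ℂ) - 1))‖ ≤ C := by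
    intro ε hε
    rw [norm_neg]
    have := h6 (y := ε) (by rw [Real.dist_eq, sub_zero, abs_of_pos hε.1]; exact hε.2) hε.1
    exact this
  have hconv : Convex ℝ (Set.Ioo (0 : ℝ) δ) := convex_Ioo _ _
  have hC0 : 0 ≤ C := (norm_nonneg _).trans (hbd (δ / 2) ⟨by positivity, by linarith⟩)
  have hfin : ∀ ε ∈ Set.Ioo (0 : ℝ) δ,
      ‖(LSeries (nf t) (1 + ε) - (m : ℂ) * (Real.log ε : ℂ))‖ ≤ C * δ +
      ‖(LSeries (nf t) (1 + ((δ / 2 : ℝ) : ℂ)) - (m : ℂ) * (Real.log (δ / 2) : ℂ))‖ := by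
    intro ε hε
    have hm : δ / 2 ∈ Set.Ioo (0 : ℝ) δ := ⟨by positivity, by linarith⟩
    have h7 := hconv.norm_image_sub_le_of_norm_hasDerivWithin_le hder hbd hm hε
    have h8 : ‖ε - δ / 2‖ ≤ δ := by
      rw [Real.norm_eq_abs, abs_le]
      constructor <;> linarith [hε.1, hε.2]
    have h9 := norm_le_norm_sub_add (LSeries (nf t) (1 + ε) - (m : ℂ) * (Real.log ε : ℂ))
      (LSeries (nf t) (1 + ((δ / 2 : ℝ) : ℂ)) - (m : ℂ) * (Real.log (δ / 2) : ℂ))
    have h10 := mul_le_mul_of_nonneg_left h8 hC0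
    linarith
  set C' := C * δ +
      ‖(LSeries (nf t) (1 + ((δ / 2 : ℝ) : ℂ)) - (m : ℂ) * (Real.log (δ / 2) : ℂ))‖ with hC'
  have hev : ∀ᶠ ε : ℝ in 𝓝[>] 0, ε ∈ Set.Ioo (0 : ℝ) δ := Ioo_mem_nhdsGT hδ
  have h7 : Tendsto (fun ε : ℝ => (cs t ε - (m : ℂ) * (Real.log ε : ℂ)) /
      (Real.log (1 / ε) : ℂ)) (𝓝[>] 0) (𝓝 0) := by
    have h8 : Tendsto (fun ε : ℝ => C' / Real.log (1 / ε)) (𝓝[>] 0) (𝓝 0) :=
      tendsto_const_nhds.div_atTop log_tendsto
    refine squeeze_zero_norm' ?_ h8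
    filter_upwards [hev, log_tendsto.eventually_gt_atTop 0] with ε h9 h10
    rw [norm_div, Complex.norm_real, Real.norm_eq_abs, abs_of_pos h10]
    refine div_le_div_of_nonneg_right ?_ h10.le
    have hre : 1 < (1 + ε : ℂ).re := by simp [h9.1]
    rw [cs, tsum_eq_LSeries htb hre]
    exact hfin ε h9
  have h8 := h7.add_const (-(m : ℂ))
  rw [zero_add] at h8
  refine h8.congr' ?_
  filter_upwards [log_tendsto.eventually_gt_atTop 0, self_mem_nhdsWithin] with ε h9 h10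
  have h11 : Real.log (1 / ε) = - Real.log ε := by rw [one_div, Real.log_inv]
  have h12 : ((Real.log (1 / ε) : ℝ) : ℂ) ≠ 0 := by exact_mod_cast h9.ne'
  have h13 : ((Real.log ε : ℝ) : ℂ) = -((Real.log (1 / ε) : ℝ) : ℂ) := by
    rw [h11]; push_cast; ring
  rw [h13]
  field_simp
  ring

end Pool.Agent.HX6.ST
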