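import Pool.Agent.HX6.ST.C
import Pool.Agent.HX6.ST.D

/-! The law of finitely many points on a torus for every prime. -/

set_option autoImplicit false
set_option linter.unusedSectionVars false

namespace Pool.Agent.HX6.ST

open Complex Filter Topology ComplexConjugate NumberField IsDedekindDomain MeasureTheory
  Pool.Agent.TH553.RS Pool.Agent.TH553.ST Pool.Agent.W540.BE Pool.Agent.H341R2 Pool.Agent.HX6.GO
  UnitAddTorus

variable {K : Type} [Field K] [NumberField K] {d : Type} [Fintype d] {b : ℕ}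

theorem bc_sum (θ : HeightOneSpectrum (𝓞 K) → Fin b → UnitAddTorus d) (h : C(UnitAddTorus d, ℂ)) :
    Bc fun v => ∑ i, h (θ v i) := by
  refine ⟨b * ‖h‖, fun v => (norm_sum_le _ _).trans ?_⟩
  refine (Finset.sum_le_card_nsmul _ _ ‖h‖ fun i _ => h.norm_coe_le_norm _).trans ?_
  simp

theorem bd_sum (θ : HeightOneSpectrum (𝓞 K) → Fin b → UnitAddTorus d) (h : C(UnitAddTorus d, ℝ)) :
    Bd fun v => ∑ i, h (θ v i) := by
  refine ⟨b * ‖h‖, fun v => (Finset.abs_sum_le_sum_abs _ _).trans ?_⟩
  refine (Finset.sum_le_card_nsmul _ _ ‖h‖ fun i _ => h.norm_coe_le_norm _).trans ?_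
  simp

theorem norm_Mc_le {t : HeightOneSpectrum (𝓞 K) → ℂ} {B : ℝ} (ht : ∀ v, ‖t v‖ ≤ B)
    {U : Ultrafilter ℝ} (hU : (U : Filter ℝ) ≤ 𝓝[>] 0) : ‖Mc (nm K) U t‖ ≤ 2 * B := by
  have hb : Bc t := ⟨B, ht⟩
  have h1 : ∀ φ : HeightOneSpectrum (𝓞 K) → ℝ, (∀ v, |φ v| ≤ B) → |M (nm K) U φ| ≤ B := by
    intro φ hφ
    have hφb : Bd φ := ⟨B, hφ⟩
    rw [abs_le]
    constructor
    · have h2 := M_mono (sysF K) hU (Bd.const (-B)) hφb fun v => (abs_le.1 (hφ v)).1
      rwa [M_const (sysF K) hU] at h2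
    · have h2 := M_mono (sysF K) hU hφb (Bd.const B) fun v => (abs_le.1 (hφ v)).2
      rwa [M_const (sysF K) hU] at h2
  unfold Mc
  refine (norm_add_le _ _).trans ?_
  rw [norm_mul, Complex.norm_I, mul_one, Complex.norm_real, Complex.norm_real, two_mul]
  exact add_le_add (h1 _ fun v => (Complex.abs_re_le_norm _).trans (ht v))
    (h1 _ fun v => (Complex.abs_im_le_norm _).trans (ht v))

/-- **the law** -/
theorem law_measure (θ : HeightOneSpectrum (𝓞 K) → Fin b → UnitAddTorus d)
    (c : (d → ℤ) → ℂ) (hc : ∀ n, Am (fun v => ∑ i, mFourier n (θ v i)) (c n)) :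
    ∃ μ : Measure (UnitAddTorus d), IsFiniteMeasure μ ∧ (∀ n, fc mFourier μ n = c n) ∧
      ∀ h : C(UnitAddTorus d, ℂ), Am (fun v => ∑ i, h (θ v i)) (∫ x, h x ∂μ) := by
  have hU0 : ((Ultrafilter.of (𝓝[>] (0 : ℝ)) : Ultrafilter ℝ) : Filter ℝ) ≤ 𝓝[>] 0 :=
    Ultrafilter.of_le _
  set U0 : Ultrafilter ℝ := Ultrafilter.of (𝓝[>] (0 : ℝ)) with hU0def
  obtain ⟨μ, hμ, hint⟩ := riesz (fun h : C(UnitAddTorus d, ℝ) =>
    M (nm K) U0 fun v => ∑ i, h (θ v i))
    (fun f g => by
      rw [← M_add (sysF K) hU0 (bd_sum θ f) (bd_sum θ g)]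
      congr 1
      funext v
      rw [← Finset.sum_add_distrib]
      rfl)
    (fun a f => by
      rw [← M_const_mul (sysF K) hU0 (bd_sum θ f)]
      congr 1
      funext v
      rw [Finset.mul_sum]
      rfl)
    (fun f hf => M_nonneg (sysF K) hU0 (bd_sum θ f) fun v => Finset.sum_nonneg fun i _ => hf _)
  have hintc : ∀ h : C(UnitAddTorus d, ℂ), ∫ x, h x ∂μ =
      Mc (nm K) U0 fun v => ∑ i, h (θ v i) := by
    intro h
    have h1 := hint ⟨fun x => (h x).re, Complex.continuous_re.comp h.continuous⟩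
    have h2 := hint ⟨fun x => (h x).im, Complex.continuous_im.comp h.continuous⟩
    simp only [ContinuousMap.coe_mk] at h1 h2
    have h3 := integral_re_add_im (𝕜 := ℂ) (integrable_cont μ h)
    rw [← h3]
    unfold Mc
    simp only [Complex.re_sum, Complex.im_sum]
    simp only [RCLike.re_to_complex, RCLike.im_to_complex, RCLike.I_to_complex,
      Complex.coe_algebraMap]
    rw [h1, h2]
  have hfc : ∀ n, fc mFourier μ n = c n := fun n => by
    unfold fc
    rw [hintc]
    exact (am_iff (bc_sum θ (mFourier n))).1 (hc n) U0 hU0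
  refine ⟨μ, hμ, hfc, fun h => ?_⟩
  rw [am_iff (bc_sum θ h)]
  intro U hU
  let L : C(UnitAddTorus d, ℂ) →ₗ[ℂ] ℂ :=
    { toFun := fun f => (Mc (nm K) U fun v => ∑ i, f (θ v i)) - ∫ x, f x ∂μ
      map_add' := fun f f' => by
        have h1 := Mc_add (sysF K) hU (bc_sum θ f) (bc_sum θ f')
        have h2 := integral_add (integrable_cont μ f) (integrable_cont μ f')
        have h3 : (fun v => ∑ i, (f + f') (θ v i)) =
            fun v => (∑ i, f (θ v i)) + ∑ i, f' (θ v i) := by
          funext v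
          rw [← Finset.sum_add_distrib]
          rfl
        simp only [h3]
        rw [h1]
        simp only [ContinuousMap.add_apply]
        rw [h2]
        ring
      map_smul' := fun a f => by
        have h1 := Mc_const_mul (sysF K) hU (bc_sum θ f) a
        have h3 : (fun v => ∑ i, (a • f) (θ v i)) = fun v => a * ∑ i, f (θ v i) := by
          funext v
          rw [Finset.mul_sum]
          rfl
        simp only [h3]
        rw [h1]
        simp only [ContinuousMap.smul_apply, smul_eq_mul, RingHom.id_apply]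
        rw [integral_const_mul]
        ring }
  have h0 := zero_of_chars chars_mF L (2 * b + μ.real Set.univ) (fun f => by
    refine (norm_sub_le _ _).trans ?_
    rw [add_mul]
    refine add_le_add ?_ ?_
    · rw [mul_assoc]
      refine norm_Mc_le (fun v => (norm_sum_le _ _).trans ?_) hU
      refine (Finset.sum_le_card_nsmul _ _ ‖f‖ fun i _ => f.norm_coe_le_norm _).trans ?_
      simp
    · rw [mul_comm]
      exact norm_integral_le_of_norm_le_const
        (Eventually.of_forall fun x => f.norm_coe_le_norm x)) (fun n => by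
      change (Mc (nm K) U fun v => ∑ i, mFourier n (θ v i)) - fc mFourier μ n = 0
      rw [hfc, (am_iff (bc_sum θ (mFourier n))).1 (hc n) U hU, sub_self]) h
  exact sub_eq_zero.1 h0

end Pool.Agent.HX6.ST
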