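import Mathlib

/-! A greedy choice of points with small sums. -/

set_option autoImplicit false

namespace Pool.Agent.HX6.ST

open MeasureTheory Filter Topology
open scoped ComplexConjugate

section greedy

variable {X M : Type*} [TopologicalSpace X] [CompactSpace X] [MeasurableSpace X] [BorelSpace X]
  {ρ : Measure X} [IsProbabilityMeasure ρ]

/-- the potential -/
noncomputable def pot (w : M → ℝ) (S : M → ℂ) : ℝ := ∑' m, w m * ‖S m‖ ^ 2

theorem summ_pot {w : M → ℝ} (hw : ∀ m, 0 < w m) (hws : Summable w) {S : M → ℂ} {C : ℝ}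
    (hS : ∀ m, ‖S m‖ ≤ C) : Summable fun m => w m * ‖S m‖ ^ 2 := by
  refine Summable.of_nonneg_of_le (fun m => mul_nonneg (hw m).le (sq_nonneg _)) (fun m => ?_)
    (hws.mul_right (C ^ 2))
  refine mul_le_mul_of_nonneg_left ?_ (hw m).le
  exact pow_le_pow_left₀ (norm_nonneg _) (hS m) 2

theorem greedy_step [Countable M] {w : M → ℝ} (hw : ∀ m, 0 < w m) (hws : Summable w)
    {f : M → X → ℂ} (hf : ∀ m, Continuous (f m)) {B : ℝ} (hB : ∀ m x, ‖f m x‖ ≤ B)
    (h0 : ∀ m, ∫ x, f m x ∂ρ = 0) {S : M → ℂ} {C : ℝ} (hS : ∀ m, ‖S m‖ ≤ C) :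
    ∃ x, pot w (fun m => S m + f m x) ≤ pot w S + B ^ 2 * ∑' m, w m := by
  have hB0 : ∀ x : X, ∀ m : M, 0 ≤ B := fun x m => (norm_nonneg _).trans (hB m x)
  set g : M → X → ℝ := fun m x => w m * (conj (S m) * f m x).re with hg
  have hgc : ∀ m, Continuous (g m) := fun m =>
    continuous_const.mul (Complex.continuous_re.comp (continuous_const.mul (hf m)))
  have hgb : ∀ m x, ‖g m x‖ ≤ w m * (C * B) := by
    intro m x
    rw [hg]
    simp only [norm_mul, Real.norm_eq_abs, abs_of_pos (hw m)]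
    refine mul_le_mul_of_nonneg_left ?_ (hw m).le
    refine (Complex.abs_re_le_norm _).trans ?_
    rw [norm_mul, Complex.norm_conj]
    exact mul_le_mul (hS m) (hB m x) (norm_nonneg _) ((norm_nonneg _).trans (hS m))
  have hsum : Summable fun m => w m * (C * B) := hws.mul_right _
  have hint : ∀ m, Integrable (g m) ρ := fun m =>
    Integrable.of_bound (hgc m).aestronglyMeasurable _ (Eventually.of_forall fun x => hgb m x)
  have hG : Continuous fun x => ∑' m, g m x := continuous_tsum hgc hsum hgb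
  have hGi : Integrable (fun x => ∑' m, g m x) ρ := by
    obtain ⟨D, hD⟩ := (isCompact_univ (X := X)).exists_bound_of_continuousOn hG.continuousOn
    exact Integrable.of_bound hG.aestronglyMeasurable D
      (Eventually.of_forall fun x => hD x (Set.mem_univ _))
  have h1 : ∀ m, ∫ x, g m x ∂ρ = 0 := by
    intro m
    rw [hg]
    simp only
    rw [integral_const_mul]
    have h2 : ∫ x, (conj (S m) * f m x).re ∂ρ = (∫ x, conj (S m) * f m x ∂ρ).re := by
      have hi : Integrable (fun x => conj (S m) * f m x) ρ :=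
        (Integrable.of_bound (hf m).aestronglyMeasurable B
          (Eventually.of_forall fun x => hB m x)).const_mul _
      exact integral_re hi
    rw [h2, integral_const_mul, h0, mul_zero, Complex.zero_re, mul_zero]
  have h2 : ∫ x, (∑' m, g m x) ∂ρ = 0 := by
    have h3 := hasSum_integral_of_summable_integral_norm hint (by
      refine Summable.of_nonneg_of_le (fun m => integral_nonneg fun x => norm_nonneg _)
        (fun m => ?_) hsum
      have := integral_mono (hint m).norm (integrable_const (w m * (C * B))) fun x => hgb m x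
      simpa using this)
    rw [← h3.tsum_eq]
    simp only [h1, tsum_zero]
  obtain ⟨x, hx⟩ := exists_le_integral hGi
  rw [h2] at hx
  refine ⟨x, ?_⟩
  have hexp : ∀ m, w m * ‖S m + f m x‖ ^ 2 = w m * ‖S m‖ ^ 2 + 2 * g m x +
      w m * ‖f m x‖ ^ 2 := by
    intro m
    rw [hg]
    simp only
    have h3 : ‖S m + f m x‖ ^ 2 = ‖S m‖ ^ 2 + 2 * (conj (S m) * f m x).re + ‖f m x‖ ^ 2 := by
      have h4 := @norm_add_sq ℂ ℂ _ _ _ (S m) (f m x)
      rw [h4]
      simp only [RCLike.inner_apply, RCLike.re_to_complex]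
      rw [mul_comm (f m x)]
    rw [h3]
    ring
  have s1 := summ_pot hw hws hS
  have s2 : Summable fun m => g m x := Summable.of_norm_bounded hsum fun m => hgb m x
  have s3 := summ_pot hw hws (S := fun m => f m x) fun m => hB m x
  unfold pot
  simp only [hexp]
  rw [(s1.add (s2.mul_left 2)).tsum_add s3, s1.tsum_add (s2.mul_left 2), tsum_mul_left]
  have h4 : ∑' m, w m * ‖f m x‖ ^ 2 ≤ B ^ 2 * ∑' m, w m := by
    rw [← tsum_mul_left]
    refine s3.tsum_le_tsum (fun m => ?_) (hws.mul_left _)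
    rw [mul_comm]
    exact mul_le_mul_of_nonneg_right (pow_le_pow_left₀ (norm_nonneg _) (hB m x) 2) (hw m).le
  linarith

theorem greedy_block [Countable M] {P : Type*} [DecidableEq P] {w : M → ℝ}
    (hw : ∀ m, 0 < w m) (hws : Summable w)
    {f : M → X → ℂ} (hf : ∀ m, Continuous (f m)) {B : ℝ} (hB : ∀ m x, ‖f m x‖ ≤ B)
    (h0 : ∀ m, ∫ x, f m x ∂ρ = 0) (A : Finset P) (y : P → X) {S : M → ℂ} {C : ℝ}
    (hS : ∀ m, ‖S m‖ ≤ C) : ∃ y' : P → X, (∀ p ∉ A, y' p = y p) ∧
      pot w (fun m => S m + ∑ p ∈ A, f m (y' p)) ≤ pot w S + A.card * (B ^ 2 * ∑' m, w m) := by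
  induction A using Finset.induction_on with
  | empty => exact ⟨y, fun _ _ => rfl, by simp⟩
  | insert a A ha ih =>
    obtain ⟨y', h1, h2⟩ := ih
    have hS' : ∀ m, ‖S m + ∑ p ∈ A, f m (y' p)‖ ≤ C + A.card * B := by
      intro m
      refine (norm_add_le _ _).trans (add_le_add (hS m) ((norm_sum_le _ _).trans ?_))
      have := Finset.sum_le_card_nsmul A (fun p => ‖f m (y' p)‖) B fun p _ => hB _ _
      simpa [nsmul_eq_mul] using this
    obtain ⟨x, hx⟩ := greedy_step hw hws hf hB h0 hS'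
    refine ⟨Function.update y' a x, fun p hp => ?_, ?_⟩
    · rw [Finset.mem_insert, not_or] at hp
      rw [Function.update_of_ne hp.1]
      exact h1 p hp.2
    · have h3 : ∀ m, S m + ∑ p ∈ insert a A, f m (Function.update y' a x p) =
          (S m + ∑ p ∈ A, f m (y' p)) + f m x := by
        intro m
        rw [Finset.sum_insert ha, Function.update_self]
        have h4 : ∑ p ∈ A, f m (Function.update y' a x p) = ∑ p ∈ A, f m (y' p) := by
          refine Finset.sum_congr rfl fun p hp => ?_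
          rw [Function.update_of_ne]
          rintro rfl
          exact ha hp
        rw [h4]
        ring
      simp only [h3]
      rw [Finset.card_insert_of_notMem ha]
      push_cast
      linarith

/-- **points with small sums over an increasing sequence of finite sets** -/
theorem greedy_seq [Countable M] {P : Type*} {w : M → ℝ}
    (hw : ∀ m, 0 < w m) (hws : Summable w)
    {f : M → X → ℂ} (hf : ∀ m, Continuous (f m)) {B : ℝ} (hB : ∀ m x, ‖f m x‖ ≤ B)
    (h0 : ∀ m, ∫ x, f m x ∂ρ = 0) (A : ℕ → Finset P) (hA : Monotone A) :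
    ∃ y : P → X, ∀ n m, w m * ‖∑ p ∈ A n, f m (y p)‖ ^ 2 ≤
      (A n).card * (B ^ 2 * ∑' m, w m) := by
  classical
  obtain ⟨x0⟩ : Nonempty X := nonempty_of_isProbabilityMeasure ρ
  set E : ℝ := B ^ 2 * ∑' m, w m with hE
  set Q : ℕ → (P → X) → Prop := fun n y =>
    pot w (fun m => ∑ p ∈ A n, f m (y p)) ≤ (A n).card * E with hQ
  have hbd : ∀ (s : Finset P) (y : P → X) (m : M), ‖∑ p ∈ s, f m (y p)‖ ≤ s.card * B := by
    intro s y m
    refine (norm_sum_le _ _).trans ?_
    have := Finset.sum_le_card_nsmul s (fun p => ‖f m (y p)‖) B fun p _ => hB _ _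
    simpa [nsmul_eq_mul] using this
  have hbase : ∃ y, Q 0 y := by
    obtain ⟨y, -, hy⟩ := greedy_block hw hws hf hB h0 (A 0) (fun _ => x0)
      (S := fun _ => 0) (C := 0) fun m => by simp
    refine ⟨y, ?_⟩
    have h1 : pot w (fun _ => (0 : ℂ)) = 0 := by simp [pot]
    simp only [zero_add] at hy
    rw [h1, zero_add] at hy
    exact hy
  have hstep : ∀ n y, Q n y → ∃ y', (∀ p ∈ A n, y' p = y p) ∧ Q (n + 1) y' := by
    intro n y hy
    obtain ⟨y', h1, h2⟩ := greedy_block hw hws hf hB h0 (A (n + 1) \ A n) y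
      (S := fun m => ∑ p ∈ A n, f m (y p)) (hbd (A n) y)
    have h3 : ∀ p ∈ A n, y' p = y p := fun p hp => h1 p (by
      rw [Finset.mem_sdiff, not_and_or]
      exact Or.inr (not_not.2 hp))
    refine ⟨y', h3, ?_⟩
    have h4 : ∀ m, ∑ p ∈ A (n + 1), f m (y' p) =
        ∑ p ∈ A n, f m (y p) + ∑ p ∈ A (n + 1) \ A n, f m (y' p) := by
      intro m
      rw [← Finset.sum_sdiff (hA (Nat.le_succ n)), add_comm]
      congr 1
      exact Finset.sum_congr rfl fun p hp => by rw [h3 p hp]
    change pot w (fun m => ∑ p ∈ A (n + 1), f m (y' p)) ≤ (A (n + 1)).card * E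
    simp only [h4]
    refine h2.trans ?_
    have h5 : ((A (n + 1)).card : ℝ) = (A n).card + (A (n + 1) \ A n).card := by
      rw [Finset.card_sdiff_of_subset (hA (Nat.le_succ n))]
      rw [Nat.cast_sub (Finset.card_le_card (hA (Nat.le_succ n)))]
      ring
    rw [h5, add_mul]
    exact add_le_add hy le_rfl
  choose g hg1 hg2 using hstep
  obtain ⟨y0, hy0⟩ := hbase
  let Y : ∀ n, {y : P → X // Q n y} := fun n =>
    Nat.rec ⟨y0, hy0⟩ (fun n y => ⟨g n y.1 y.2, hg2 n y.1 y.2⟩) n
  have hY : ∀ n, ∀ p ∈ A n, (Y (n + 1)).1 p = (Y n).1 p := fun n p hp =>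
    hg1 n (Y n).1 (Y n).2 p hp
  set y : P → X := fun p => if h : ∃ n, p ∈ A n then (Y (Nat.find h)).1 p else x0 with hy
  have hyY : ∀ n, ∀ p ∈ A n, y p = (Y n).1 p := by
    intro n p hp
    have h : ∃ n, p ∈ A n := ⟨n, hp⟩
    rw [hy]
    simp only
    rw [dif_pos h]
    have h1 : Nat.find h ≤ n := Nat.find_min' h hp
    have h2 : p ∈ A (Nat.find h) := Nat.find_spec h
    induction n, h1 using Nat.le_induction with
    | base => rfl
    | succ k hk ih =>
      have h3 : p ∈ A k := hA hk h2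
      rw [ih h3, hY k p h3]
  refine ⟨y, fun n m => ?_⟩
  have h1 : ∑ p ∈ A n, f m (y p) = ∑ p ∈ A n, f m ((Y n).1 p) :=
    Finset.sum_congr rfl fun p hp => by rw [hyY n p hp]
  rw [h1]
  refine le_trans ?_ (Y n).2
  unfold pot
  exact (summ_pot hw hws (hbd (A n) (Y n).1)).le_tsum m
    fun j _ => mul_nonneg (hw j).le (sq_nonneg _)

end greedy

end Pool.Agent.HX6.ST
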