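import Pool.Agent.HX6.ST.G
import Pool.Agent.HX6.ST.D

/-! Continuation of Dirichlet series with small partial sums, and the realization of laws. -/

set_option autoImplicit false
set_option linter.unusedSectionVars false

namespace Pool.Agent.HX6.ST

open Complex Filter Topology ComplexConjugate NumberField IsDedekindDomain MeasureTheory
  Pool.Agent.TH553.RS Pool.Agent.TH553.ST Pool.Agent.W540.BE Pool.Agent.H341R2 Pool.Agent.HX6.GO
  H332.PIT

theorem cont_half {g : ℕ → ℂ} {B : ℝ} (hb : ∀ n, ‖g n‖ ≤ B)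
    (hO : (fun n : ℕ => ∑ k ∈ Finset.Icc 1 n, g k) =O[atTop] fun n : ℕ => (n : ℝ) ^ (1 / 2 : ℝ)) :
    ∃ F : ℂ → ℂ, DifferentiableOn ℂ F {s | 1 / 2 < s.re} ∧
      ∀ s : ℂ, 1 < s.re → F s = LSeries g s := by
  have hB0 : 0 ≤ B := (norm_nonneg _).trans (hb 0)
  set A : ℕ → ℂ := fun n => ∑ k ∈ Finset.Icc 1 n, g k with hA
  have hAn : ∀ n, ‖A n‖ ≤ B * n := by
    intro n
    refine (norm_sum_le _ _).trans ?_
    have := Finset.sum_le_card_nsmul (Finset.Icc 1 n) (fun k => ‖g k‖) B fun k _ => hb k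
    simpa [nsmul_eq_mul, mul_comm] using this
  set f : ℝ → ℂ := (Set.Ioi (1 : ℝ)).indicator fun t => A ⌊t⌋₊ with hf
  have hfm : Measurable f :=
    ((measurable_from_nat (f := A)).comp Nat.measurable_floor).indicator measurableSet_Ioi
  have hfb : ∀ t, ‖f t‖ ≤ ‖B * (1 + |t|)‖ := by
    intro t
    rw [Real.norm_eq_abs, abs_of_nonneg (by positivity)]
    by_cases ht : t ∈ Set.Ioi (1 : ℝ)
    · rw [hf, Set.indicator_of_mem ht]
      refine (hAn _).trans (mul_le_mul_of_nonneg_left ?_ hB0)
      have ht0 : (0 : ℝ) ≤ t := zero_le_one.trans (le_of_lt ht)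
      have := Nat.floor_le ht0
      have := le_abs_self t
      linarith
    · rw [hf, Set.indicator_of_notMem ht, norm_zero]
      positivity
  have hloc : LocallyIntegrableOn f (Set.Ioi 0) := by
    have h1 : Continuous fun t : ℝ => B * (1 + |t|) := by fun_prop
    exact (h1.locallyIntegrable.mono hfm.aestronglyMeasurable
      (Eventually.of_forall hfb)).locallyIntegrableOn _
  have htop : f =O[atTop] fun t : ℝ => t ^ (-(-(1 / 2) : ℝ)) := by
    have h1 := hO.comp_tendsto (tendsto_nat_floor_atTop (α := ℝ))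
    have h2 : (fun t : ℝ => ((⌊t⌋₊ : ℕ) : ℝ) ^ (1 / 2 : ℝ)) =O[atTop]
        fun t : ℝ => t ^ (-(-(1 / 2) : ℝ)) := by
      refine Asymptotics.IsBigO.of_bound 1 ?_
      filter_upwards [eventually_ge_atTop (0 : ℝ)] with t ht
      rw [Real.norm_eq_abs, Real.norm_eq_abs, abs_of_nonneg (by positivity),
        abs_of_nonneg (by positivity), one_mul, neg_neg]
      exact Real.rpow_le_rpow (Nat.cast_nonneg _) (Nat.floor_le ht) (by norm_num)
    refine (h1.trans h2).congr' ?_ (Eventually.of_forall fun _ => rfl)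
    filter_upwards [eventually_gt_atTop (1 : ℝ)] with t ht
    rw [hf, Set.indicator_of_mem (show t ∈ Set.Ioi (1 : ℝ) from ht)]
    rfl
  have hbot : ∀ b : ℝ, f =O[𝓝[>] 0] fun t : ℝ => t ^ (-b) := by
    intro b
    refine Asymptotics.IsBigO.of_bound 0 ?_
    have h1 : ∀ᶠ t : ℝ in 𝓝[>] 0, t < 1 :=
      (eventually_lt_nhds (show (0 : ℝ) < 1 from one_pos)).filter_mono nhdsWithin_le_nhds
    filter_upwards [h1] with t ht
    rw [hf, Set.indicator_of_notMem (by
      intro h
      have : (1 : ℝ) < t := h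
      linarith), norm_zero, zero_mul]
  refine ⟨fun s => s * mellin f (-s), ?_, ?_⟩
  · intro s hs
    have hs' : 1 / 2 < s.re := hs
    have h1 : DifferentiableAt ℂ (mellin f) (-s) :=
      mellin_differentiableAt_of_isBigO_rpow (a := -(1 / 2)) (b := (-s).re - 1) hloc htop
        (by rw [Complex.neg_re]; linarith) (hbot _) (by linarith)
    have h2 : DifferentiableAt ℂ (fun s => mellin f (-s)) s :=
      h1.comp s (differentiable_neg s)
    exact (differentiableAt_id.mul h2).differentiableWithinAt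
  · intro s hs
    have hsum : LSeriesSummable g s :=
      LSeriesSummable_of_bounded_of_one_lt_re (m := B) (fun n _ => hb n) hs
    rw [LSeries_eq_mul_integral g (r := 1 / 2) (by norm_num) (by linarith) hsum hO]
    congr 1
    unfold mellin
    have h1 : (Set.Ioi (0 : ℝ)) ∩ Set.Ioi 1 = Set.Ioi 1 := by
      ext t
      simp only [Set.mem_inter_iff, Set.mem_Ioi]
      constructor
      · exact fun h => h.2
      · exact fun h => ⟨by linarith, h⟩
    have h2 : ∀ t : ℝ, (t : ℂ) ^ (-s - 1) • f t =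
        (Set.Ioi (1 : ℝ)).indicator (fun t => A ⌊t⌋₊ * (t : ℂ) ^ (-(s + 1))) t := by
      intro t
      by_cases ht : t ∈ Set.Ioi (1 : ℝ)
      · rw [hf, Set.indicator_of_mem ht, Set.indicator_of_mem ht, smul_eq_mul, mul_comm]
        congr 2
        ring
      · rw [hf, Set.indicator_of_notMem ht, Set.indicator_of_notMem ht, smul_zero]
    simp only [h2]
    rw [setIntegral_indicator measurableSet_Ioi, h1]

variable {K : Type} [Field K] [NumberField K]

theorem card_bigO : (fun n : ℕ => ((upto K n).card : ℝ)) =O[atTop] fun n : ℕ => (n : ℝ) := by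
  have h1 : ∀ᶠ n : ℕ in atTop, ((upto K n).card : ℝ) / (Nat.primeCounting n : ℝ) < 2 :=
    (card_ratio (K := K)).eventually_lt_const (by norm_num)
  refine Asymptotics.IsBigO.of_bound 2 ?_
  filter_upwards [h1, eventually_ge_atTop 2] with n h2 h3
  rw [Real.norm_eq_abs, Real.norm_eq_abs, abs_of_nonneg (by positivity),
    abs_of_nonneg (by positivity)]
  have h4 : (0 : ℝ) < Nat.primeCounting n := by
    have : 0 < Nat.primeCounting n := by
      have h5 := Nat.monotone_primeCounting h3
      have h6 : Nat.primeCounting 2 = 1 := by decide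
      omega
    exact_mod_cast this
  rw [div_lt_iff₀ h4] at h2
  have h5 : (Nat.primeCounting n : ℝ) ≤ n := by
    have : Nat.primeCounting n ≤ n := by
      unfold Nat.primeCounting Nat.primeCounting'
      rw [Nat.count_eq_card_filter_range]
      refine (Finset.card_le_card (t := Finset.Icc 1 n) fun p hp => ?_).trans
        (by rw [Nat.card_Icc]; omega)
      rw [Finset.mem_filter, Finset.mem_range] at hp
      rw [Finset.mem_Icc]
      exact ⟨hp.2.one_lt.le, by omega⟩
    exact_mod_cast this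
  linarith

/-- **Points with small sums.** -/
theorem exists_points {X M : Type*} [TopologicalSpace X] [CompactSpace X] [MeasurableSpace X]
    [BorelSpace X] {ρ : Measure X} [IsProbabilityMeasure ρ] [Countable M]
    {f : M → X → ℂ} (hf : ∀ m, Continuous (f m)) {B : ℝ} (hB : ∀ m x, ‖f m x‖ ≤ B)
    (h0 : ∀ m, ∫ x, f m x ∂ρ = 0) :
    ∃ y : HeightOneSpectrum (𝓞 K) → X, ∀ m,
      (fun n : ℕ => ∑ k ∈ Finset.Icc 1 n, nf (fun v => f m (y v)) k) =O[atTop]
        fun n : ℕ => (n : ℝ) ^ (1 / 2 : ℝ) := by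
  have hM := Encodable.ofCountable M
  obtain ⟨w, hw, c, hc, -⟩ := posSumOfEncodable (ε := 1) one_pos M
  obtain ⟨y, hy⟩ := greedy_seq (ρ := ρ) hw hc.summable hf hB h0 (fun n => upto K n) (by
    intro n n' hn v hv
    rw [mem_upto] at hv ⊢
    exact hv.trans hn)
  refine ⟨y, fun m => ?_⟩
  set E : ℝ := B ^ 2 * ∑' m, w m with hE
  have hE0 : 0 ≤ E := mul_nonneg (sq_nonneg _) (tsum_nonneg fun m => (hw m).le)
  obtain ⟨D, hD⟩ := (card_bigO (K := K)).bound
  refine Asymptotics.IsBigO.of_bound (Real.sqrt (D * E / w m)) ?_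
  filter_upwards [hD] with n hn
  rw [sum_nf]
  have h1 := hy n m
  rw [Real.norm_eq_abs, abs_of_nonneg (by positivity), Real.norm_eq_abs,
    abs_of_nonneg (by positivity)] at hn
  have hwm := hw m
  have h2 : ‖∑ v ∈ upto K n, f m (y v)‖ ^ 2 ≤ D * E / w m * n := by
    have h3 : ‖∑ v ∈ upto K n, f m (y v)‖ ^ 2 ≤ (upto K n).card * E / w m := by
      rw [le_div_iff₀ hwm]
      linarith
    refine h3.trans ?_
    rw [div_mul_eq_mul_div]
    refine div_le_div_of_nonneg_right ?_ hwm.le
    have := mul_le_mul_of_nonneg_right hn hE0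
    linarith
  have h3 := Real.le_sqrt_of_sq_le h2
  rw [Real.sqrt_mul' _ (Nat.cast_nonneg n)] at h3
  rw [Real.norm_eq_abs, abs_of_nonneg (by positivity), ← Real.sqrt_eq_rpow]
  exact h3

end Pool.Agent.HX6.ST
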