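import Pool.Agent.HX6.ST.H
import Pool.Agent.HX6.ST.C

/-! The realization of laws. -/

set_option autoImplicit false
set_option linter.unusedSectionVars false

namespace Pool.Agent.HX6.ST

open Complex Filter Topology ComplexConjugate NumberField IsDedekindDomain MeasureTheory
  Pool.Agent.TH553.RS Pool.Agent.TH553.ST Pool.Agent.W540.BE Pool.Agent.H341R2 Pool.Agent.HX6.GO
  H332.PIT UnitAddTorus

variable {K : Type} [Field K] [NumberField K]

/-- an Euler product with small deviations -/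
theorem LA_zeta {b : ℕ} {α : HeightOneSpectrum (𝓞 K) → Fin b → ℂ} (hα : ∀ v j, ‖α v j‖ = 1)
    (c : ℤ) {s : ℂ} (hs : 1 < s.re) :
    LA α s = dedekindZeta K s ^ c * cexp (LSeries (nf fun v => (∑ j, α v j) - c) s + Rt α s -
      c * Rt (K := K) (b := 1) (fun _ _ => (1 : ℂ)) s) := by
  have h1 : LA α s = cexp (LSeries (nf fun v => ∑ j, α v j) s + Rt α s) := L_exp hα hs
  have hone : ∀ (v : HeightOneSpectrum (𝓞 K)) (j : Fin 1), ‖(fun _ _ => (1 : ℂ)) v j‖ = 1 :=
    fun v j => norm_one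
  have h2 : dedekindZeta K s = cexp (LSeries (nf fun _ : HeightOneSpectrum (𝓞 K) => (1 : ℂ)) s +
      Rt (K := K) (b := 1) (fun _ _ => (1 : ℂ)) s) := by
    have h3 := L_exp (K := K) hone hs
    rw [zeta_L hs, h3]
    simp
  have hb := sum_le hα
  have h4 : LSeries (nf fun v => ∑ j, α v j) s = LSeries (nf fun v => (∑ j, α v j) - c) s +
      c * LSeries (nf fun _ : HeightOneSpectrum (𝓞 K) => (1 : ℂ)) s := by
    have hb1 : ∀ v : HeightOneSpectrum (𝓞 K), ‖(fun v => (∑ j, α v j) - (c : ℂ)) v‖ ≤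
        b + ‖(c : ℂ)‖ := fun v => (norm_sub_le _ _).trans (add_le_add (hb v) le_rfl)
    have hb2 : ∀ v : HeightOneSpectrum (𝓞 K), ‖(fun _ => (1 : ℂ)) v‖ ≤ 1 := fun v => by simp
    rw [← tsum_eq_LSeries hb hs, ← tsum_eq_LSeries hb1 hs, ← tsum_eq_LSeries hb2 hs,
      ← tsum_mul_left, ← (summable_nm hb1 hs).tsum_add ((summable_nm hb2 hs).mul_left _)]
    refine tsum_congr fun v => ?_
    ring
  rw [h1, h2, ← Complex.exp_int_mul, ← Complex.exp_add, h4]
  congr 1
  ring

/-- the continuation -/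
theorem cont_of_small {b : ℕ} {α : HeightOneSpectrum (𝓞 K) → Fin b → ℂ}
    (hα : ∀ v j, ‖α v j‖ = 1) (c : ℤ)
    (hO : (fun n : ℕ => ∑ k ∈ Finset.Icc 1 n, nf (fun v => (∑ j, α v j) - c) k) =O[atTop]
      fun n : ℕ => (n : ℝ) ^ (1 / 2 : ℝ)) (τ : ℝ) :
    ∃ Λ : ℂ → ℂ, MeromorphicAt Λ (1 + τ * I) ∧
      (∀ᶠ s in 𝓝 ((1 : ℂ) + τ * I), 1 < s.re → Λ s = LA α s) ∧
      meromorphicOrderAt Λ (1 + τ * I) = if τ = 0 then -c else 0 := by
  have hb := sum_le hα
  have hb1 : ∀ v : HeightOneSpectrum (𝓞 K), ‖(fun v => (∑ j, α v j) - (c : ℂ)) v‖ ≤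
      b + ‖(c : ℂ)‖ := fun v => (norm_sub_le _ _).trans (add_le_add (hb v) le_rfl)
  obtain ⟨F, hF1, hF2⟩ := cont_half (norm_nf_le hb1) hO
  set s0 : ℂ := 1 + τ * I with hs0
  have hK : Cont K := Pool.Agent.H484R2.continuation K
  obtain ⟨g, hg1, hg2⟩ := hK τ
  have hg0 : g s0 ≠ 0 := cont_ne_zero hK τ hg1 hg2
  have hone : ∀ (v : HeightOneSpectrum (𝓞 K)) (j : Fin 1), ‖(fun _ _ => (1 : ℂ)) v j‖ = 1 :=
    fun v j => norm_one
  have hmem : s0 ∈ Hp := by
    have : (3 / 4 : ℝ) < s0.re := by rw [hs0]; norm_num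
    exact this
  have hR : AnalyticAt ℂ (Rt α) s0 := (diff_Rt hα).analyticAt (isOpen_Hp.mem_nhds hmem)
  have hR1 : AnalyticAt ℂ (Rt (K := K) (b := 1) fun _ _ => (1 : ℂ)) s0 :=
    (diff_Rt hone).analyticAt (isOpen_Hp.mem_nhds hmem)
  have hFa : AnalyticAt ℂ F s0 := by
    refine hF1.analyticAt ((isOpen_lt continuous_const Complex.continuous_re).mem_nhds ?_)
    have : (1 / 2 : ℝ) < s0.re := by rw [hs0]; norm_num
    exact this
  set G : ℂ → ℂ := fun z => g z ^ c * cexp (F z + Rt α z -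
    c * Rt (K := K) (b := 1) (fun _ _ => (1 : ℂ)) z) with hG
  have hGa : AnalyticAt ℂ G s0 :=
    (hg1.zpow hg0).mul ((hFa.add hR).sub (analyticAt_const.mul hR1)).cexp
  have hG0 : G s0 ≠ 0 := mul_ne_zero (zpow_ne_zero _ hg0) (Complex.exp_ne_zero _)
  set Λ : ℂ → ℂ := fun z => (z - 1) ^ (-c) * G z with hΛ
  have hm1 : MeromorphicAt (fun z : ℂ => (z - 1) ^ (-c)) s0 := by
    have : MeromorphicAt (fun z : ℂ => z - 1) s0 :=
      (MeromorphicAt.id s0).sub (MeromorphicAt.const 1 s0)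
    exact this.zpow (-c)
  have hmΛ : MeromorphicAt Λ s0 := hm1.mul hGa.meromorphicAt
  refine ⟨Λ, hmΛ, ?_, ?_⟩
  · filter_upwards [hg2] with z hz hre
    have hz1 : z - 1 ≠ 0 := by
      intro h
      have h1 : z = 1 := sub_eq_zero.1 h
      rw [h1] at hre
      simp at hre
    rw [LA_zeta hα c hre, hΛ, hG]
    simp only
    rw [hz hre, hF2 z hre, mul_zpow, zpow_neg]
    have h2 : (z - 1) ^ c ≠ 0 := zpow_ne_zero _ hz1
    field_simp
  · by_cases hτ : τ = 0
    · rw [if_pos hτ]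
      rw [meromorphicOrderAt_eq_int_iff hmΛ]
      refine ⟨G, hGa, hG0, Eventually.of_forall fun z => ?_⟩
      have h2 : s0 = 1 := by rw [hs0, hτ]; simp
      rw [h2, smul_eq_mul]
    · rw [if_neg hτ]
      have hne : s0 - 1 ≠ 0 := by
        rw [hs0]
        simp [hτ]
      have hA : AnalyticAt ℂ Λ s0 :=
        ((analyticAt_id.sub analyticAt_const).zpow hne).mul hGa
      have h0 : Λ s0 ≠ 0 := mul_ne_zero (zpow_ne_zero _ hne) hG0
      have h1 := hA.meromorphicOrderAt_eq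
      rw [h1, (hA.analyticOrderAt_eq_zero).2 h0]
      rfl

variable {d : Type} [Fintype d]

/-- **The realization.** -/
theorem realize {X : Type} [TopologicalSpace X] [CompactSpace X] [MeasurableSpace X]
    [BorelSpace X] {ρ : Measure X} [IsProbabilityMeasure ρ] {b : ℕ}
    (W : Fin b → C(X, UnitAddTorus d)) (c : (d → ℤ) → ℤ)
    (hc : ∀ n, ∑ i, ∫ x, mFourier n (W i x) ∂ρ = c n) :
    ∃ y : HeightOneSpectrum (𝓞 K) → X, ∀ (n : d → ℤ) (τ : ℝ), ∃ Λ : ℂ → ℂ,
      MeromorphicAt Λ (1 + τ * I) ∧ (∀ᶠ s in 𝓝 ((1 : ℂ) + τ * I), 1 < s.re →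
        Λ s = LA (fun v i => mFourier n (W i (y v))) s) ∧
      meromorphicOrderAt Λ (1 + τ * I) = if τ = 0 then -c n else 0 := by
  have hcont : ∀ n i, Continuous fun x => mFourier n (W i x) := fun n i =>
    (mFourier n).continuous.comp (W i).continuous
  have hint : ∀ n i, Integrable (fun x => mFourier n (W i x)) ρ := fun n i =>
    Integrable.of_bound (hcont n i).aestronglyMeasurable 1
      (Eventually.of_forall fun x => (norm_mF n _).le)
  have hcn : ∀ n, ‖(c n : ℂ)‖ ≤ b := by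
    intro n
    rw [← hc n]
    refine (norm_sum_le _ _).trans ?_
    refine (Finset.sum_le_card_nsmul _ _ 1 fun i _ => ?_).trans (by simp)
    have := norm_integral_le_of_norm_le_const (μ := ρ) (f := fun x => mFourier n (W i x)) (C := 1)
      (Eventually.of_forall fun x => (norm_mF n _).le)
    simpa using this
  obtain ⟨y, hy⟩ := exists_points (K := K) (ρ := ρ)
    (f := fun (n : d → ℤ) x => (∑ i, mFourier n (W i x)) - (c n : ℂ))
    (fun n => (continuous_finsetSum _ fun i _ => hcont n i).sub continuous_const) (B := b + b)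
    (fun n x => by
      refine (norm_sub_le _ _).trans (add_le_add ?_ (hcn n))
      refine (norm_sum_le _ _).trans ?_
      simp [norm_mF])
    (fun n => by
      rw [integral_sub (integrable_finsetSum _ fun i _ => hint n i) (integrable_const _),
        integral_finsetSum _ fun i _ => hint n i, hc n]
      simp)
  refine ⟨y, fun n τ => ?_⟩
  exact cont_of_small (α := fun v i => mFourier n (W i (y v))) (fun v i => norm_mF n _) (c n)
    (hy n) τ

end Pool.Agent.HX6.ST
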