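import Pool.Agent.HX6.ST.E
import Pool.Agent.HX6.ST.R
import Pool.Agent.HX6.GO.F3

/-! The law for natural density, and the dichotomy. -/

set_option autoImplicit false
set_option linter.unusedSectionVars false

namespace Pool.Agent.HX6.ST

open Complex Filter Topology ComplexConjugate NumberField IsDedekindDomain MeasureTheory
  Pool.Agent.TH553.RS Pool.Agent.TH553.ST Pool.Agent.W540.BE Pool.Agent.H341R2 Pool.Agent.HX6.GO
  UnitAddTorus

section meas

variable {d : Type} [Fintype d]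

/-- finite measures on the torus with the same integrals of continuous functions -/
theorem meas_ext {μ ν : Measure (UnitAddTorus d)} [IsFiniteMeasure μ] [IsFiniteMeasure ν]
    (h : ∀ f : C(UnitAddTorus d, ℂ), ∫ x, f x ∂μ = ∫ x, f x ∂ν) : μ = ν := by
  refine ext_of_forall_integral_eq_of_IsFiniteMeasure fun f => ?_
  have h1 := h ⟨fun x => (f x : ℂ), Complex.continuous_ofReal.comp f.continuous⟩
  simp only [ContinuousMap.coe_mk] at h1
  rw [integral_complex_ofReal, integral_complex_ofReal] at h1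
  exact_mod_cast h1

/-- a density on a subgroup -/
theorem withDensity_eq {ν m : Measure (UnitAddTorus d)} [IsFiniteMeasure ν] [IsFiniteMeasure m]
    {K : AddSubgroup (UnitAddTorus d)} (hK : m (K : Set (UnitAddTorus d))ᶜ = 0)
    {p : UnitAddTorus d → ℂ} (hp : Continuous p)
    (h1 : ∀ h : C(UnitAddTorus d, ℂ), ∫ x, h x ∂ν = ∫ x, h x * p x ∂m)
    (h2 : ∀ x ∈ K, (p x).im = 0 ∧ 0 ≤ (p x).re) :
    ν = m.withDensity fun x => ENNReal.ofReal (p x).re := by
  have hae : ∀ᵐ x ∂m, x ∈ K := by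
    rw [ae_iff]
    exact hK
  have hpr : Continuous fun x => (p x).re := Complex.continuous_re.comp hp
  obtain ⟨C, hC⟩ := (isCompact_univ (X := UnitAddTorus d)).exists_bound_of_continuousOn
    hpr.continuousOn
  have hfin : IsFiniteMeasure (m.withDensity fun x => ENNReal.ofReal (p x).re) := by
    refine isFiniteMeasure_withDensity ?_
    have h3 : ∫⁻ x, ENNReal.ofReal (p x).re ∂m ≤ ∫⁻ _, ENNReal.ofReal C ∂m :=
      lintegral_mono fun x => ENNReal.ofReal_le_ofReal
        ((le_abs_self _).trans (hC x (Set.mem_univ _)))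
    refine ne_top_of_le_ne_top ?_ h3
    rw [lintegral_const]
    exact ENNReal.mul_ne_top ENNReal.ofReal_ne_top (measure_ne_top _ _)
  refine meas_ext fun f => ?_
  rw [h1, integral_withDensity_eq_integral_toReal_smul₀
    (hpr.measurable.ennreal_ofReal.aemeasurable) (Eventually.of_forall fun x =>
      ENNReal.ofReal_lt_top)]
  refine integral_congr_ae ?_
  filter_upwards [hae] with x hx
  obtain ⟨h3, h4⟩ := h2 x hx
  rw [ENNReal.toReal_ofReal h4, Complex.real_smul, mul_comm]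
  congr 1
  apply Complex.ext
  · simp
  · simpa using h3

theorem integral_dens {m : Measure (UnitAddTorus d)} [IsFiniteMeasure m]
    {K : AddSubgroup (UnitAddTorus d)} (hK : m (K : Set (UnitAddTorus d))ᶜ = 0)
    {p : UnitAddTorus d → ℂ} (hp : Continuous p)
    (h2 : ∀ x ∈ K, (p x).im = 0 ∧ 0 ≤ (p x).re) (h : UnitAddTorus d → ℂ) :
    ∫ x, h x ∂(m.withDensity fun x => ENNReal.ofReal (p x).re) = ∫ x, h x * p x ∂m := by
  have hae : ∀ᵐ x ∂m, x ∈ K := by
    rw [ae_iff]
    exact hK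
  have hpr : Continuous fun x => (p x).re := Complex.continuous_re.comp hp
  rw [integral_withDensity_eq_integral_toReal_smul₀
    (hpr.measurable.ennreal_ofReal.aemeasurable) (Eventually.of_forall fun x =>
      ENNReal.ofReal_lt_top)]
  refine integral_congr_ae ?_
  filter_upwards [hae] with x hx
  obtain ⟨h3, h4⟩ := h2 x hx
  rw [ENNReal.toReal_ofReal h4, Complex.real_smul, mul_comm]
  congr 1
  apply Complex.ext
  · simp
  · simpa using h3.symm

end meas

variable {K : Type} [Field K] [NumberField K] {d : Type} [Fintype d] {b : ℕ}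

theorem nat_add (θ : HeightOneSpectrum (𝓞 K) → Fin b → UnitAddTorus d)
    (μ : Measure (UnitAddTorus d)) [IsFiniteMeasure μ] (P Q : C(UnitAddTorus d, ℂ))
    (h1 : Tendsto (mn fun v => ∑ i, P (θ v i)) atTop (𝓝 (∫ x, P x ∂μ)))
    (h2 : Tendsto (mn fun v => ∑ i, Q (θ v i)) atTop (𝓝 (∫ x, Q x ∂μ))) :
    Tendsto (mn fun v => ∑ i, (P + Q) (θ v i)) atTop (𝓝 (∫ x, (P + Q) x ∂μ)) := by
  have h3 := h1.add h2
  have h4 : ∫ x, (P + Q) x ∂μ = ∫ x, P x ∂μ + ∫ x, Q x ∂μ :=
    integral_add (integrable_cont μ P) (integrable_cont μ Q)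
  rw [h4]
  refine h3.congr fun N => ?_
  unfold mn
  rw [← smul_add, ← Finset.sum_add_distrib]
  congr 1
  refine Finset.sum_congr rfl fun v _ => ?_
  rw [← Finset.sum_add_distrib]
  rfl

theorem nat_smul (θ : HeightOneSpectrum (𝓞 K) → Fin b → UnitAddTorus d)
    (μ : Measure (UnitAddTorus d)) (a : ℂ) (P : C(UnitAddTorus d, ℂ))
    (h1 : Tendsto (mn fun v => ∑ i, P (θ v i)) atTop (𝓝 (∫ x, P x ∂μ))) :
    Tendsto (mn fun v => ∑ i, (a • P) (θ v i)) atTop (𝓝 (∫ x, (a • P) x ∂μ)) := by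
  have h3 := h1.const_mul a
  have h4 : ∫ x, (a • P) x ∂μ = a * ∫ x, P x ∂μ := integral_const_mul a _
  rw [h4]
  refine h3.congr fun N => ?_
  rw [← mn_mul]
  congr 1
  funext v
  rw [Finset.mul_sum]
  rfl

/-- the functions which have the right mean value -/
def natSub (θ : HeightOneSpectrum (𝓞 K) → Fin b → UnitAddTorus d)
    (μ : Measure (UnitAddTorus d)) [IsFiniteMeasure μ] : Submodule ℂ C(UnitAddTorus d, ℂ) where
  carrier := {P | Tendsto (mn fun v => ∑ i, P (θ v i)) atTop (𝓝 (∫ x, P x ∂μ))}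
  add_mem' := fun {P Q} h1 h2 => nat_add θ μ P Q h1 h2
  smul_mem' := fun a P h1 => nat_smul θ μ a P h1
  zero_mem' := by
    have h1 := mn_const_lim (K := K) 0
    have h2 : ∫ x, (0 : C(UnitAddTorus d, ℂ)) x ∂μ = 0 := by simp
    have h3 : (fun v : HeightOneSpectrum (𝓞 K) => ∑ i, (0 : C(UnitAddTorus d, ℂ)) (θ v i)) =
        fun _ => 0 := by
      funext v
      simp
    change Tendsto (mn fun v => ∑ i, (0 : C(UnitAddTorus d, ℂ)) (θ v i)) atTop
      (𝓝 (∫ x, (0 : C(UnitAddTorus d, ℂ)) x ∂μ))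
    rw [h2, h3]
    exact h1

/-- the law for natural density -/
theorem nat_law (θ : HeightOneSpectrum (𝓞 K) → Fin b → UnitAddTorus d)
    (μ : Measure (UnitAddTorus d)) [IsFiniteMeasure μ]
    (hc : ∀ n, Tendsto (mn fun v => ∑ i, mFourier n (θ v i)) atTop (𝓝 (fc mFourier μ n)))
    (h : C(UnitAddTorus d, ℂ)) :
    Tendsto (mn fun v => ∑ i, h (θ v i)) atTop (𝓝 (∫ x, h x ∂μ)) := by
  have hle : Submodule.span ℂ (Set.range (mFourier : (d → ℤ) → C(UnitAddTorus d, ℂ))) ≤
      natSub θ μ := by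
    rw [Submodule.span_le]
    rintro _ ⟨n, rfl⟩
    exact hc n
  have hspan : ∀ P ∈ Submodule.span ℂ (Set.range (mFourier : (d → ℤ) → C(UnitAddTorus d, ℂ))),
      Tendsto (mn fun v => ∑ i, P (θ v i)) atTop (𝓝 (∫ x, P x ∂μ)) := fun P hP => hle hP
  refine mn_unif fun ε hε => ?_
  have hμ0 : 0 ≤ μ.real Set.univ := measureReal_nonneg
  have hd : h ∈ closure ((Submodule.span ℂ
      (Set.range (mFourier : (d → ℤ) → C(UnitAddTorus d, ℂ))) : Submodule ℂ _) :
      Set C(UnitAddTorus d, ℂ)) := by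
    have h1 := congrArg (fun S : Submodule ℂ C(UnitAddTorus d, ℂ) =>
        (S : Set C(UnitAddTorus d, ℂ))) (span_mFourier_closure_eq_top (d := d))
    simp only [Submodule.topologicalClosure_coe, Submodule.top_coe] at h1
    rw [h1]
    trivial
  obtain ⟨P, hP, hdist⟩ := Metric.mem_closure_iff.1 hd (ε / (b + μ.real Set.univ + 1))
    (by positivity)
  rw [dist_eq_norm] at hdist
  have hden : 0 < (b : ℝ) + μ.real Set.univ + 1 := by positivity
  have hle : ‖h - P‖ * (b + μ.real Set.univ + 1) ≤ ε := by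
    rw [lt_div_iff₀ hden] at hdist
    exact hdist.le
  refine ⟨fun v => ∑ i, P (θ v i), ∫ x, P x ∂μ, fun v => ?_, ?_, hspan P hP⟩
  · rw [← Finset.sum_sub_distrib]
    refine (norm_sum_le _ _).trans ?_
    refine (Finset.sum_le_card_nsmul _ _ ‖h - P‖ fun i _ => (h - P).norm_coe_le_norm _).trans ?_
    simp only [Finset.card_univ, Fintype.card_fin, nsmul_eq_mul]
    nlinarith [norm_nonneg (h - P)]
  · rw [← integral_sub (integrable_cont μ P) (integrable_cont μ h)]
    refine (norm_integral_le_of_norm_le_const (C := ‖h - P‖) (Eventually.of_forall fun x => ?_)).trans ?_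
    · rw [norm_sub_rev]
      exact (h - P).norm_coe_le_norm x
    · nlinarith [norm_nonneg (h - P)]

theorem am_const (c : ℂ) : Am (K := K) (fun _ => c) c := by
  rw [am_iff (Bc.const c)]
  intro U hU
  apply Complex.ext
  · rw [Mc_re]
    exact M_const (sysF K) hU _
  · rw [Mc_im]
    exact M_const (sysF K) hU _

/-- **The law exists.** -/
theorem law_of_near (θ : HeightOneSpectrum (𝓞 K) → Fin b → UnitAddTorus d)
    (hc : ∀ n : d → ℤ, n ≠ 0 → ∃ Λ : ℂ → ℂ, MeromorphicAt Λ 1 ∧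
      ∀ᶠ s in 𝓝 (1 : ℂ), 1 < s.re → Λ s = LA (fun v i => mFourier n (θ v i)) s) :
    ∃ μ : Measure (UnitAddTorus d), IsFiniteMeasure μ ∧ (∀ n, ∃ c : ℤ, fc mFourier μ n = c) ∧
      fc mFourier μ 0 = b ∧
      ∀ h : C(UnitAddTorus d, ℂ), Am (fun v => ∑ i, h (θ v i)) (∫ x, h x ∂μ) := by
  have h1 : ∀ n : d → ℤ, ∃ c : ℤ, Am (fun v => ∑ i, mFourier n (θ v i)) (c : ℂ) := by
    intro n
    by_cases hn : n = 0
    · refine ⟨b, ?_⟩
      have h2 : (fun v : HeightOneSpectrum (𝓞 K) => ∑ i, mFourier n (θ v i)) =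
          fun _ => (((b : ℤ) : ℂ)) := by
        funext v
        rw [hn, mFourier_zero]
        simp
      rw [h2]
      exact am_const _
    · obtain ⟨Λ, h2, h3⟩ := hc n hn
      have hα : ∀ (v : HeightOneSpectrum (𝓞 K)) (i : Fin b), ‖mFourier n (θ v i)‖ = 1 :=
        fun v i => norm_mF n _
      have e1 : (1 : ℂ) + ((0 : ℝ) : ℂ) * I = 1 := by simp
      obtain ⟨k, h4, -⟩ := order_LA (τ := 0) hα (Λ := Λ) (by rw [e1]; exact h2)
        (by rw [e1]; exact h3)
      rw [e1] at h4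
      refine ⟨-k, ?_⟩
      have := am_ord hα h2 h3 h4
      push_cast
      exact this
  choose c hc' using h1
  obtain ⟨μ, h2, h3, h4⟩ := law_measure θ (fun n => (c n : ℂ)) hc'
  refine ⟨μ, h2, fun n => ⟨c n, h3 n⟩, ?_, h4⟩
  have h5 := hc' 0
  have h6 : (fun v : HeightOneSpectrum (𝓞 K) => ∑ i, mFourier (0 : d → ℤ) (θ v i)) =
      fun _ => (b : ℂ) := by
    funext v
    rw [mFourier_zero]
    simp
  rw [h6] at h5
  rw [h3]
  exact h5.unique (am_const _)

end Pool.Agent.HX6.ST
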