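import Pool.Agent.HX6.ST.Q

/-! Densities of the sets of primes with a relation. -/

set_option autoImplicit false
set_option linter.unusedSectionVars false

namespace Pool.Agent.HX6.ST

open Complex Filter Topology ComplexConjugate NumberField IsDedekindDomain MeasureTheory
  Pool.Agent.TH553.RS Pool.Agent.TH553.ST Pool.Agent.W540.BE Pool.Agent.H341R2 Pool.Agent.HX6.GO
  UnitAddTorus

section haar

variable {d : Type} [Fintype d]

theorem fc_haar_top {m : Measure (UnitAddTorus d)} (hm : HaarOn ⊤ m) {n : d → ℤ} (hn : n ≠ 0) :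
    fc mFourier m n = 0 := by
  obtain ⟨x, -, hx1⟩ := exists_sep (H := (⊥ : AddSubgroup (d → ℤ))) (n := n) (by
    rw [AddSubgroup.mem_bot]; exact hn)
  have h1 : fc mFourier m n = mFourier n x * fc mFourier m n := by
    unfold fc
    conv_lhs => rw [← hm.inv x (AddSubgroup.mem_top x)]
    rw [integral_map (measurable_const_add x).aemeasurable
      (mFourier n).continuous.aestronglyMeasurable]
    simp only [mF_vadd]
    rw [integral_const_mul]
  have h2 : (1 - mFourier n x) * fc mFourier m n = 0 := by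
    rw [sub_mul, one_mul, ← h1, sub_self]
  rcases mul_eq_zero.1 h2 with h3 | h3
  · exact absurd (sub_eq_zero.1 h3).symm hx1
  · exact h3

/-- the zero set of a character is a null set -/
theorem haar_null {m : Measure (UnitAddTorus d)} (hm : HaarOn ⊤ m) {κ : d → ℤ} (hκ : κ ≠ 0) :
    m {x | mFourier κ x = 1} = 0 := by
  have := hm.prob
  set A : Set (UnitAddTorus d) := {x | mFourier κ x = 1} with hA
  have hAm : MeasurableSet A :=
    (isClosed_eq (mFourier κ).continuous continuous_const).measurableSet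
  obtain ⟨j, hj⟩ := Function.ne_iff.1 hκ
  have key : ∀ N : ℕ, 0 < N → m.real A ≤ 1 / N := by
    intro N hN
    have hN' : (0 : ℝ) < N := by exact_mod_cast hN
    set f : UnitAddTorus d → ℂ := fun x => ∑ k ∈ Finset.range N, mFourier ((k : ℤ) • κ) x with hf
    have hfA : ∀ x ∈ A, f x = N := by
      intro x hx
      have h1 : ∀ k : ℕ, mFourier ((k : ℤ) • κ) x = 1 := by
        intro k
        have h2 : mFourier κ x = 1 := hx
        induction k with
        | zero => simp [mFourier_zero]
        | succ k ih =>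
          rw [Nat.cast_succ, add_smul, one_smul, mFourier_add, ih, h2, one_mul]
      rw [hf]
      beta_reduce
      rw [Finset.sum_congr rfl fun k _ => h1 k]
      simp
    have hfc : Continuous f := continuous_finsetSum _ fun k _ => (mFourier _).continuous
    have hsq : ∫ x, ((‖f x‖ ^ 2 : ℝ) : ℂ) ∂m = N := by
      have h1 : ∀ x, ((‖f x‖ ^ 2 : ℝ) : ℂ) = ∑ k ∈ Finset.range N, ∑ l ∈ Finset.range N,
          mFourier ((k : ℤ) • κ + -((l : ℤ) • κ)) x := by
        intro x
        rw [← Complex.normSq_eq_norm_sq, ← Complex.mul_conj, hf]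
        simp only [map_sum]
        rw [Finset.sum_mul_sum]
        refine Finset.sum_congr rfl fun k _ => Finset.sum_congr rfl fun l _ => ?_
        rw [mFourier_add, mFourier_neg]
      simp only [h1]
      rw [integral_finsetSum _ fun k _ => integrable_finsetSum _ fun l _ =>
        integrable_cont m (mFourier _)]
      have h2 : ∀ k ∈ Finset.range N, ∫ x, ∑ l ∈ Finset.range N,
          mFourier ((k : ℤ) • κ + -((l : ℤ) • κ)) x ∂m = 1 := by
        intro k hk
        rw [integral_finsetSum _ fun l _ => integrable_cont m (mFourier _)]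
        rw [Finset.sum_eq_single k]
        · rw [add_neg_cancel, mFourier_zero]
          simp
        · intro l _ hl
          refine fc_haar_top hm ?_
          intro h0
          have h3 := congrFun h0 j
          simp only [Pi.add_apply, Pi.neg_apply, Pi.smul_apply, smul_eq_mul, Pi.zero_apply] at h3
          have h4 : ((k : ℤ) - l) * κ j = 0 := by linarith
          rcases mul_eq_zero.1 h4 with h5 | h5
          · apply hl
            omega
          · exact hj h5
        · intro h; exact absurd hk h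
      rw [Finset.sum_congr rfl h2]
      simp
    have hsq' : ∫ x, ‖f x‖ ^ 2 ∂m = N := by
      rw [integral_complex_ofReal] at hsq
      exact_mod_cast hsq
    have hle : (N : ℝ) ^ 2 * m.real A ≤ N := by
      have h1 : ∫ x in A, ‖f x‖ ^ 2 ∂m = (N : ℝ) ^ 2 * m.real A := by
        have h2 : ∫ x in A, ‖f x‖ ^ 2 ∂m = ∫ x in A, (N : ℝ) ^ 2 ∂m := by
          refine setIntegral_congr_fun hAm fun x hx => ?_
          beta_reduce
          rw [hfA x hx, Complex.norm_natCast]
        rw [h2, setIntegral_const, smul_eq_mul, mul_comm]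
      rw [← h1, ← hsq']
      refine setIntegral_le_integral ?_ (Eventually.of_forall fun x => sq_nonneg _)
      obtain ⟨C, hC⟩ := (isCompact_univ (X := UnitAddTorus d)).exists_bound_of_continuousOn
        (hfc.norm.pow 2).continuousOn
      exact Integrable.of_bound (hfc.norm.pow 2).aestronglyMeasurable C
        (Eventually.of_forall fun x => hC x (Set.mem_univ _))
    rw [le_div_iff₀ hN']
    have h2 : (N : ℝ) * (m.real A * N) ≤ N * 1 := by
      calc (N : ℝ) * (m.real A * N) = (N : ℝ) ^ 2 * m.real A := by ring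
        _ ≤ N := hle
        _ = N * 1 := by ring
    exact le_of_mul_le_mul_left h2 hN'
  have h0 : m.real A ≤ 0 := by
    refine ge_of_tendsto tendsto_one_div_atTop_nhds_zero_nat ?_
    filter_upwards [eventually_gt_atTop 0] with N hN
    exact key N hN
  have h1 : m.real A = 0 := le_antisymm h0 measureReal_nonneg
  rwa [measureReal_eq_zero_iff] at h1

theorem comp_null {μ : Measure (UnitAddTorus d)} (h : IsComp ⊤ μ) {κ : d → ℤ} (hκ : κ ≠ 0) :
    μ {x | mFourier κ x = 1} = 0 := by
  obtain ⟨-, m, F, c, -, hm, -, rfl⟩ := h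
  exact withDensity_absolutelyContinuous _ _ (haar_null hm hκ)

end haar

variable {K : Type} [Field K] [NumberField K] {d : Type} [Fintype d] {b : ℕ}

/-- the partial densities -/
noncomputable def pd (S : Set (HeightOneSpectrum (𝓞 K))) (ε : ℝ) : ℝ :=
  (∑' v, S.indicator (fun v => (nm K v : ℝ) ^ (-(1 + ε))) v) / Real.log (1 / ε)

theorem pd_eq (S : Set (HeightOneSpectrum (𝓞 K))) (ε : ℝ) :
    pd S ε = EP (nm K) ε (S.indicator fun _ => 1) / Real.log (1 / ε) := by
  unfold pd EP
  congr 1
  refine tsum_congr fun v => ?_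
  by_cases h : v ∈ S
  · rw [Set.indicator_of_mem h, Set.indicator_of_mem h, one_mul]
  · rw [Set.indicator_of_notMem h, Set.indicator_of_notMem h, zero_mul]

theorem real_mean {t : HeightOneSpectrum (𝓞 K) → ℝ} (ht : Bd t) {c : ℝ}
    (h : Am (fun v => (t v : ℂ)) c) :
    Tendsto (fun ε => EP (nm K) ε t / Real.log (1 / ε)) (𝓝[>] 0) (𝓝 c) := by
  have hb : Bc fun v => (t v : ℂ) := by
    obtain ⟨B, hB⟩ := ht
    exact ⟨B, fun v => by rw [Complex.norm_real]; exact hB v⟩
  have h1 := (Complex.continuous_re.tendsto _).comp h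
  refine h1.congr' ?_
  filter_upwards [self_mem_nhdsWithin] with ε hε
  rw [Function.comp_apply, Complex.div_ofReal_re, re_cs hb hε]
  simp

theorem EP_mono' {φ ψ : HeightOneSpectrum (𝓞 K) → ℝ} (hφ : Bd φ) (hψ : Bd ψ)
    (h : ∀ v, φ v ≤ ψ v) {ε : ℝ} (hε : 0 < ε) : EP (nm K) ε φ ≤ EP (nm K) ε ψ := by
  obtain ⟨B, hB⟩ := hφ
  obtain ⟨B', hB'⟩ := hψ
  have h1 := EP_add (sysF K).sys hε hB' (ψ := fun v => (-1) * φ v) (B' := B) (fun v => by
    rw [neg_one_mul, abs_neg]; exact hB v)
  have h2 : 0 ≤ EP (nm K) ε fun v => ψ v + (-1) * φ v :=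
    EP_nonneg fun v => by have := h v; linarith
  rw [h1, EP_const_mul] at h2
  linarith

/-- a lower bound for the density of the primes with a relation -/
theorem lower_dens (θ : HeightOneSpectrum (𝓞 K) → Fin b → UnitAddTorus d) (hb : 0 < b)
    {μ : Measure (UnitAddTorus d)} [IsFiniteMeasure μ]
    (hlaw : ∀ h : C(UnitAddTorus d, ℂ), Am (fun v => ∑ i, h (θ v i)) (∫ x, h x ∂μ))
    {κ : d → ℤ} (hκ : 1 ≤ μ.real {x | mFourier κ x = 1}) {δ : ℝ} (hδ : 0 < δ) {η : ℝ}
    (hη : 0 < η) :
    ∀ᶠ ε in 𝓝[>] (0 : ℝ), 1 / (b : ℝ) - η < pd {v | ∃ i, ‖mFourier κ (θ v i) - 1‖ < δ} ε := by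
  set S : Set (HeightOneSpectrum (𝓞 K)) := {v | ∃ i, ‖mFourier κ (θ v i) - 1‖ < δ} with hS
  set g : UnitAddTorus d → ℝ := fun x => max 0 (1 - ‖mFourier κ x - 1‖ / δ) with hg
  have hgc : Continuous g := continuous_const.max
    (continuous_const.sub (((mFourier κ).continuous.sub continuous_const).norm.div_const δ))
  have hg0 : ∀ x, 0 ≤ g x := fun x => le_max_left _ _
  have hg1 : ∀ x, g x ≤ 1 := fun x => max_le zero_le_one (by
    have : 0 ≤ ‖mFourier κ x - 1‖ / δ := by positivity
    linarith)
  have hgS : ∀ v, ∑ i, g (θ v i) ≤ b * S.indicator (fun _ => (1 : ℝ)) v := by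
    intro v
    by_cases hv : v ∈ S
    · rw [Set.indicator_of_mem hv, mul_one]
      refine (Finset.sum_le_card_nsmul _ _ 1 fun i _ => hg1 _).trans (by simp)
    · rw [Set.indicator_of_notMem hv, mul_zero]
      refine le_of_eq (Finset.sum_eq_zero fun i _ => ?_)
      have h1 : ¬ ‖mFourier κ (θ v i) - 1‖ < δ := fun h => hv ⟨i, h⟩
      rw [not_lt] at h1
      rw [hg]
      simp only
      apply max_eq_left
      have : 1 ≤ ‖mFourier κ (θ v i) - 1‖ / δ := by
        rw [le_div_iff₀ hδ]; linarith
      linarith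
  have hbd1 : Bd fun v => ∑ i, g (θ v i) := by
    refine ⟨b, fun v => ?_⟩
    rw [abs_of_nonneg (Finset.sum_nonneg fun i _ => hg0 _)]
    refine (Finset.sum_le_card_nsmul _ _ 1 fun i _ => hg1 _).trans (by simp)
  have hbd2 : Bd fun v => S.indicator (fun _ => (1 : ℝ)) v := by
    refine ⟨1, fun v => ?_⟩
    beta_reduce
    by_cases hv : v ∈ S
    · rw [Set.indicator_of_mem hv]; simp
    · rw [Set.indicator_of_notMem hv]; simp
  have hmean := hlaw ⟨fun x => (g x : ℂ), Complex.continuous_ofReal.comp hgc⟩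
  simp only [ContinuousMap.coe_mk] at hmean
  rw [integral_complex_ofReal] at hmean
  have h2 : (fun v : HeightOneSpectrum (𝓞 K) => ∑ i, (g (θ v i) : ℂ)) =
      fun v => ((∑ i, g (θ v i) : ℝ) : ℂ) := by
    funext v
    push_cast
    rfl
  rw [h2] at hmean
  have h3 := real_mean hbd1 hmean
  have hI : 1 ≤ ∫ x, g x ∂μ := by
    refine hκ.trans ?_
    have hAm : MeasurableSet {x : UnitAddTorus d | mFourier κ x = 1} :=
      (isClosed_eq (mFourier κ).continuous continuous_const).measurableSet
    have hgi : Integrable g μ := Integrable.of_bound hgc.aestronglyMeasurable 1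
      (Eventually.of_forall fun x => by rw [Real.norm_eq_abs, abs_of_nonneg (hg0 x)]; exact hg1 x)
    calc μ.real {x | mFourier κ x = 1} = ∫ x in {x | mFourier κ x = 1}, (1 : ℝ) ∂μ := by
          rw [setIntegral_const]; simp
      _ = ∫ x in {x | mFourier κ x = 1}, g x ∂μ := by
          refine setIntegral_congr_fun hAm fun x hx => ?_
          have h5 : mFourier κ x = 1 := hx
          rw [hg]
          simp [h5]
      _ ≤ ∫ x, g x ∂μ := setIntegral_le_integral hgi (Eventually.of_forall hg0)
  have hbpos : (0 : ℝ) < b := by exact_mod_cast hb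
  have h4 : ∀ᶠ ε in 𝓝[>] (0 : ℝ), 1 - b * η <
      (EP (nm K) ε fun v => ∑ i, g (θ v i)) / Real.log (1 / ε) :=
    h3.eventually_const_lt (by nlinarith)
  filter_upwards [h4, self_mem_nhdsWithin, log_tendsto.eventually_gt_atTop 0] with ε h5 h6 h7
  have h8 := EP_mono' hbd1 (hbd2.const_mul b) hgS h6
  rw [EP_const_mul] at h8
  rw [pd_eq]
  have h9 : (EP (nm K) ε fun v => ∑ i, g (θ v i)) / Real.log (1 / ε) ≤
      b * (EP (nm K) ε (S.indicator fun _ => 1) / Real.log (1 / ε)) := by
    rw [← mul_div_assoc]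
    exact div_le_div_of_nonneg_right h8 h7.le
  have h10 := h5.trans_le h9
  have h11 : (b : ℝ) * (1 / b - η) < b * (EP (nm K) ε (S.indicator fun _ => 1) /
      Real.log (1 / ε)) := by
    have : (b : ℝ) * (1 / b - η) = 1 - b * η := by field_simp
    rw [this]
    exact h10
  exact lt_of_mul_lt_mul_left h11 hbpos.le

/-- without a relation of positive measure the primes with near relations are rare -/
theorem upper_dens (θ : HeightOneSpectrum (𝓞 K) → Fin b → UnitAddTorus d)
    {μ : Measure (UnitAddTorus d)} [IsFiniteMeasure μ]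
    (hlaw : ∀ h : C(UnitAddTorus d, ℂ), Am (fun v => ∑ i, h (θ v i)) (∫ x, h x ∂μ))
    {κ : d → ℤ} (hκ : μ {x | mFourier κ x = 1} = 0) {η : ℝ} (hη : 0 < η) :
    ∃ δ : ℝ, 0 < δ ∧ ∀ᶠ ε in 𝓝[>] (0 : ℝ), pd {v | ∃ i, ‖mFourier κ (θ v i) - 1‖ < δ} ε < η := by
  -- the functions `g_n` decrease to the indicator function of the set
  set g : ℕ → UnitAddTorus d → ℝ := fun n x => min 1 (max 0 (2 - (n + 1) * ‖mFourier κ x - 1‖))
    with hg
  have hgc : ∀ n, Continuous (g n) := fun n => continuous_const.min (continuous_const.max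
    (continuous_const.sub (continuous_const.mul
      ((mFourier κ).continuous.sub continuous_const).norm)))
  have hg0 : ∀ n x, 0 ≤ g n x := fun n x => le_min zero_le_one (le_max_left _ _)
  have hg1 : ∀ n x, g n x ≤ 1 := fun n x => min_le_left _ _
  have hlim : Tendsto (fun n => ∫ x, g n x ∂μ) atTop (𝓝 0) := by
    have h1 : Tendsto (fun n => ∫ x, g n x ∂μ) atTop (𝓝 (∫ _ : UnitAddTorus d, (0 : ℝ) ∂μ)) := by
      refine tendsto_integral_of_dominated_convergence (fun _ => (1 : ℝ))
        (fun n => (hgc n).aestronglyMeasurable) (integrable_const _) (fun n =>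
          Eventually.of_forall fun x => by
            rw [Real.norm_eq_abs, abs_of_nonneg (hg0 n x)]; exact hg1 n x) ?_
      have h2 : ∀ᵐ x ∂μ, mFourier κ x ≠ 1 := by
        rw [ae_iff]
        simpa using hκ
      filter_upwards [h2] with x hx
      have hpos : 0 < ‖mFourier κ x - 1‖ := norm_pos_iff.2 (sub_ne_zero.2 hx)
      refine tendsto_const_nhds.congr' ?_
      obtain ⟨N, hN⟩ := exists_nat_gt (2 / ‖mFourier κ x - 1‖)
      filter_upwards [eventually_ge_atTop N] with n hn
      rw [div_lt_iff₀ hpos] at hN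
      have h3 : (N : ℝ) ≤ n := by exact_mod_cast hn
      have h4 : 2 - ((n : ℝ) + 1) * ‖mFourier κ x - 1‖ ≤ 0 := by nlinarith
      rw [hg]
      simp only
      rw [max_eq_left h4]
      simp
    simpa using h1
  obtain ⟨n, hn⟩ := (hlim.eventually_lt_const hη).exists
  have hn1 : (0 : ℝ) < n + 1 := by positivity
  refine ⟨1 / (n + 1), by positivity, ?_⟩
  set S : Set (HeightOneSpectrum (𝓞 K)) := {v | ∃ i, ‖mFourier κ (θ v i) - 1‖ < 1 / (n + 1)}
    with hS
  have hgS : ∀ v, S.indicator (fun _ => (1 : ℝ)) v ≤ ∑ i, g n (θ v i) := by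
    intro v
    by_cases hv : v ∈ S
    · rw [Set.indicator_of_mem hv]
      obtain ⟨i, hi⟩ := hv
      have h1 : g n (θ v i) = 1 := by
        rw [hg]
        simp only
        rw [lt_div_iff₀ hn1] at hi
        rw [min_eq_left]
        refine le_trans ?_ (le_max_right _ _)
        linarith
      rw [← h1]
      exact Finset.single_le_sum (f := fun i => g n (θ v i)) (fun j _ => hg0 n _)
        (Finset.mem_univ i)
    · rw [Set.indicator_of_notMem hv]
      exact Finset.sum_nonneg fun i _ => hg0 n _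
  have hbd1 : Bd fun v => ∑ i, g n (θ v i) := by
    refine ⟨b, fun v => ?_⟩
    rw [abs_of_nonneg (Finset.sum_nonneg fun i _ => hg0 n _)]
    refine (Finset.sum_le_card_nsmul _ _ 1 fun i _ => hg1 n _).trans (by simp)
  have hbd2 : Bd fun v => S.indicator (fun _ => (1 : ℝ)) v := by
    refine ⟨1, fun v => ?_⟩
    beta_reduce
    by_cases hv : v ∈ S
    · rw [Set.indicator_of_mem hv]; simp
    · rw [Set.indicator_of_notMem hv]; simp
  have hmean := hlaw ⟨fun x => (g n x : ℂ), Complex.continuous_ofReal.comp (hgc n)⟩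
  simp only [ContinuousMap.coe_mk] at hmean
  rw [integral_complex_ofReal] at hmean
  have h2 : (fun v : HeightOneSpectrum (𝓞 K) => ∑ i, (g n (θ v i) : ℂ)) =
      fun v => ((∑ i, g n (θ v i) : ℝ) : ℂ) := by
    funext v
    push_cast
    rfl
  rw [h2] at hmean
  have h3 := real_mean hbd1 hmean
  filter_upwards [h3.eventually_lt_const hn, self_mem_nhdsWithin,
    log_tendsto.eventually_gt_atTop 0] with ε h5 h6 h7
  have h8 := EP_mono' hbd2 hbd1 hgS h6
  rw [pd_eq]
  exact lt_of_le_of_lt (div_le_div_of_nonneg_right h8 h7.le) h5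

end Pool.Agent.HX6.ST
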