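import Pool.Agent.HX6.ST.N

/-! Components of laws. -/

set_option autoImplicit false
set_option linter.unusedSectionVars false

namespace Pool.Agent.HX6.ST

open Complex Filter Topology ComplexConjugate NumberField IsDedekindDomain MeasureTheory
  Pool.Agent.TH553.RS Pool.Agent.TH553.ST Pool.Agent.W540.BE Pool.Agent.H341R2 Pool.Agent.HX6.GO
  UnitAddTorus

section comp

variable {d : Type} [Fintype d]

/-- the trigonometric polynomial with integer coefficients -/
noncomputable def trig (F : Finset (d → ℤ)) (c : (d → ℤ) → ℤ) (x : UnitAddTorus d) : ℂ :=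
  ∑ n ∈ F, (c n : ℂ) * mFourier n x

theorem continuous_trig (F : Finset (d → ℤ)) (c : (d → ℤ) → ℤ) : Continuous (trig F c) := by
  unfold trig
  exact continuous_finsetSum _ fun a _ => continuous_const.mul (mFourier a).continuous

/-- a component -/
def IsComp (H : AddSubgroup (UnitAddTorus d)) (ν : Measure (UnitAddTorus d)) : Prop :=
  ν ≠ 0 ∧ ∃ (m : Measure (UnitAddTorus d)) (F : Finset (d → ℤ)) (c : (d → ℤ) → ℤ),
    IsClosed (H : Set (UnitAddTorus d)) ∧ HaarOn H m ∧
    (∀ x ∈ H, (trig F c x).im = 0 ∧ 0 ≤ (trig F c x).re) ∧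
    ν = m.withDensity fun x => ENNReal.ofReal (trig F c x).re

theorem comp_of_piece {ν : Measure (UnitAddTorus d)} [IsFiniteMeasure ν] (h0 : ν ≠ 0)
    {H : AddSubgroup (d → ℤ)} {F : Finset (d → ℤ)} (hP : IsPiece mFourier ν H F) :
    IsComp (ann H) ν := by
  classical
  obtain ⟨m, hm, hs⟩ := exists_haarOn (isClosed_ann H)
  have := hm.prob
  obtain ⟨F', -, h2⟩ := shape hP hm
  choose c hc using hP.int
  have h3 : tp F' (fc mFourier ν) = trig (F'.image Neg.neg) fun n => c (-n) := by
    funext x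
    unfold tp trig
    rw [Finset.sum_image (fun a _ b _ h => neg_injective h)]
    refine Finset.sum_congr rfl fun a _ => ?_
    rw [hc]
    beta_reduce
    rw [neg_neg]
  rw [h3] at h2
  have h4 := dens_nonneg (continuous_trig _ _) h2 hs
  exact ⟨h0, m, _, _, isClosed_ann H, hm, h4, withDensity_eq hm.null (continuous_trig _ _) h2 h4⟩

/-- the Fourier coefficients of a Haar measure are zero or one -/
theorem fc_haar_zo {H : AddSubgroup (UnitAddTorus d)} {m : Measure (UnitAddTorus d)}
    (hm : HaarOn H m) (n : d → ℤ) : ∃ c : ℤ, fc mFourier m n = c := by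
  have := hm.prob
  have hae : ∀ᵐ x ∂m, x ∈ H := by
    rw [ae_iff]
    exact hm.null
  by_cases hn : ∀ x ∈ H, mFourier n x = 1
  · refine ⟨1, ?_⟩
    unfold fc
    have h1 : ∫ x, mFourier n x ∂m = ∫ _ : UnitAddTorus d, (1 : ℂ) ∂m := by
      refine integral_congr_ae ?_
      filter_upwards [hae] with x hx
      exact hn x hx
    rw [h1]
    simp
  · push Not at hn
    obtain ⟨x, hx, hx1⟩ := hn
    refine ⟨0, ?_⟩
    have h1 : fc mFourier m n = mFourier n x * fc mFourier m n := by
      unfold fc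
      conv_lhs => rw [← hm.inv x hx]
      rw [integral_map (measurable_const_add x).aemeasurable
        (mFourier n).continuous.aestronglyMeasurable]
      simp only [mF_vadd]
      rw [integral_const_mul]
    have h2 : (1 - mFourier n x) * fc mFourier m n = 0 := by
      rw [sub_mul, one_mul, ← h1, sub_self]
    rcases mul_eq_zero.1 h2 with h3 | h3
    · exact absurd (sub_eq_zero.1 h3).symm hx1
    · rw [h3]; simp

theorem IsComp.finite {H : AddSubgroup (UnitAddTorus d)} {ν : Measure (UnitAddTorus d)}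
    (h : IsComp H ν) : IsFiniteMeasure ν := by
  obtain ⟨-, m, F, c, -, hm, -, rfl⟩ := h
  have := hm.prob
  obtain ⟨C, hC⟩ := (isCompact_univ (X := UnitAddTorus d)).exists_bound_of_continuousOn
    (Complex.continuous_re.comp (continuous_trig F c)).continuousOn
  refine isFiniteMeasure_withDensity ?_
  have h3 : ∫⁻ x, ENNReal.ofReal (trig F c x).re ∂m ≤ ∫⁻ _, ENNReal.ofReal C ∂m :=
    lintegral_mono fun x => ENNReal.ofReal_le_ofReal
      ((le_abs_self _).trans (hC x (Set.mem_univ _)))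
  refine ne_top_of_le_ne_top ?_ h3
  rw [lintegral_const]
  exact ENNReal.mul_ne_top ENNReal.ofReal_ne_top (measure_ne_top _ _)

theorem IsComp.int {H : AddSubgroup (UnitAddTorus d)} {ν : Measure (UnitAddTorus d)}
    (h : IsComp H ν) (n : d → ℤ) : ∃ c : ℤ, fc mFourier ν n = c := by
  obtain ⟨-, m, F, c, -, hm, hp, rfl⟩ := h
  have := hm.prob
  choose z hz using fc_haar_zo hm
  refine ⟨∑ a ∈ F, c a * z (n + a), ?_⟩
  unfold fc
  rw [integral_dens hm.null (continuous_trig F c) hp]
  have h1 : ∀ x, mFourier n x * trig F c x = ∑ a ∈ F, (c a : ℂ) * mFourier (n + a) x := by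
    intro x
    unfold trig
    rw [Finset.mul_sum]
    refine Finset.sum_congr rfl fun a _ => ?_
    rw [mFourier_add]
    ring
  simp only [h1]
  rw [integral_finsetSum _ fun a _ => (integrable_cont m (mFourier (n + a))).const_mul _]
  simp only [integral_const_mul]
  push_cast
  refine Finset.sum_congr rfl fun a _ => ?_
  rw [← hz]
  rfl

/-- `μ` is a sum of `k` components -/
def IsSum (μ : Measure (UnitAddTorus d)) (k : ℕ) : Prop :=
  ∃ (ν : Fin k → Measure (UnitAddTorus d)) (H : Fin k → AddSubgroup (UnitAddTorus d)),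
    (∀ j, IsComp (H j) (ν j)) ∧ μ = ∑ j, ν j

theorem fc_sum {ι : Type*} (s : Finset ι) (ν : ι → Measure (UnitAddTorus d))
    (h : ∀ j ∈ s, IsFiniteMeasure (ν j)) (n : d → ℤ) :
    fc mFourier (∑ j ∈ s, ν j) n = ∑ j ∈ s, fc mFourier (ν j) n := by
  unfold fc
  exact integral_finsetSum_measure fun j hj => by
    have := h j hj
    exact integrable_cont (ν j) _

theorem IsSum.int {μ : Measure (UnitAddTorus d)} {k : ℕ} (h : IsSum μ k) (n : d → ℤ) :
    ∃ c : ℤ, fc mFourier μ n = c := by
  obtain ⟨ν, H, h1, rfl⟩ := h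
  choose c hc using fun j => (h1 j).int n
  refine ⟨∑ j, c j, ?_⟩
  rw [fc_sum _ _ fun j _ => (h1 j).finite]
  push_cast
  exact Finset.sum_congr rfl fun j _ => hc j

theorem isSum_of_int {μ : Measure (UnitAddTorus d)} [IsFiniteMeasure μ]
    (hint : ∀ n, ∃ c : ℤ, fc mFourier μ n = c) {b : ℕ} (hb : μ.real Set.univ ≤ b) :
    ∃ k, k ≤ b ∧ IsSum μ k := by
  obtain ⟨k, hk, ν, H, F, h1, h2, h3, h4⟩ := pieces chars_mF b μ hint hb
  refine ⟨k, hk, ν, fun j => ann (H j), fun j => ?_, h4⟩
  have := h1 j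
  refine comp_of_piece ?_ (h3 j)
  intro h0
  have h5 := h2 j
  rw [h0] at h5
  simp at h5
  linarith

/-- finitely many nonzero coefficients -/
theorem top_of_finite {μ : Measure (UnitAddTorus d)} [IsFiniteMeasure μ] (hμ : μ ≠ 0)
    (hint : ∀ n, ∃ c : ℤ, fc mFourier μ n = c) (hfin : {n | fc mFourier μ n ≠ 0}.Finite) :
    IsComp ⊤ μ := by
  have hP : IsPiece mFourier μ ⊥ hfin.toFinset := by
    refine ⟨hint, ?_, fun n hn => ?_⟩
    · intro κ hκ
      rw [AddSubgroup.mem_bot] at hκ
      rw [hκ, mFourier_zero]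
      exact Eventually.of_forall fun x => rfl
    · exact ⟨n, hfin.mem_toFinset.2 hn, by rw [sub_self]; exact AddSubgroup.zero_mem _⟩
  have h5 := comp_of_piece hμ hP
  have h6 : ann (⊥ : AddSubgroup (d → ℤ)) = ⊤ := by
    rw [eq_top_iff]
    intro x _ κ hκ
    rw [AddSubgroup.mem_bot] at hκ
    rw [hκ, mFourier_zero]
    rfl
  rwa [h6] at h5

/-- infinitely many nonzero coefficients -/
theorem rel_of_infinite {μ : Measure (UnitAddTorus d)} [IsFiniteMeasure μ]
    (hint : ∀ n, ∃ c : ℤ, fc mFourier μ n = c) {b : ℕ} (hb : μ.real Set.univ ≤ b)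
    (hinf : {n | fc mFourier μ n ≠ 0}.Infinite) :
    ∃ κ : d → ℤ, κ ≠ 0 ∧ 1 ≤ μ.real {x | mFourier κ x = 1} := by
  classical
  obtain ⟨k, hk, ν, H, F, h1, h2, h3, h4⟩ := pieces chars_mF b μ hint hb
  by_cases hH : ∀ j, H j = ⊥
  · exfalso
    apply hinf
    refine (Finset.univ.biUnion F).finite_toSet.subset fun n hn => ?_
    have hn' : fc mFourier μ n ≠ 0 := hn
    rw [h4, fc_sum _ _ fun j _ => h1 j] at hn'
    obtain ⟨j, -, hj⟩ := Finset.exists_ne_zero_of_sum_ne_zero hn'
    obtain ⟨a, ha, hna⟩ := (h3 j).fin n hj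
    rw [hH j, AddSubgroup.mem_bot, sub_eq_zero] at hna
    rw [hna]
    exact Finset.mem_coe.2 (Finset.mem_biUnion.2 ⟨j, Finset.mem_univ _, ha⟩)
  · push Not at hH
    obtain ⟨j, hj⟩ := hH
    obtain ⟨⟨κ, hκ⟩, hκ1⟩ := AddSubgroup.ne_bot_iff_exists_ne_zero.1 hj
    have hκ0 : κ ≠ 0 := fun h0 => hκ1 (Subtype.ext h0)
    refine ⟨κ, hκ0, ?_⟩
    have := h1 j
    have hle : ∀ s, ν j s ≤ μ s := by
      intro s
      rw [h4, Measure.coe_finsetSum, Finset.sum_apply]
      exact Finset.single_le_sum (f := fun j => ν j s) (fun i _ => zero_le) (Finset.mem_univ j)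
    have h5 := (h3 j).one κ hκ
    have h6 : (ν j).real {x | mFourier κ x = 1} = (ν j).real Set.univ := by
      apply measureReal_congr
      filter_upwards [h5] with x hx
      simp only [eq_iff_iff]
      exact iff_of_true hx trivial
    calc (1 : ℝ) ≤ (ν j).real Set.univ := h2 j
      _ = (ν j).real {x | mFourier κ x = 1} := h6.symm
      _ ≤ μ.real {x | mFourier κ x = 1} :=
        ENNReal.toReal_mono (measure_ne_top _ _) (hle _)

end comp

end Pool.Agent.HX6.ST
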